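import Mathlib
import Pool.Agent.Y740.RL.TopQ

/-!
# Frobenius elements at primes of good purely inseparable reduction

Let `K` be a number field and `v` a finite place of `K` above the prime number `p`. If the Galois
extension `E` of `K` is generated by periodic points of rational maps over `K` of degrees `p ^ r`,
`1 ≤ r ≤ R`, which have good, purely inseparable reduction at `v` in some coordinates over `K`,
then `E` is unramified over `v` and the `a`-th powers of the elements of the decomposition groups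
above `v` are central, where `a` depends on `v` and `R` only.
-/

set_option autoImplicit false
set_option linter.unusedSectionVars false

namespace Pool.Agent.R976.MP

open NumberField Module MvPolynomial IsDedekindDomain Filter Topology
open Pool.Agent.H420R3 Pool.Agent.Y740.RL
open scoped Pointwise

noncomputable section

section Uniform

variable {K : Type*} [Field K] [NumberField K]
variable {P : Ideal (𝓞 K)} [hP : P.IsMaximal]

/-- a uniform iterate which is congruent to a power of Frobenius -/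
lemma uniform_good (hP0 : P ≠ ⊥) {p : ℕ} (hp : p.Prime) (hpP : (p : 𝓞 K) ∈ P) :
    ∃ S T : ℕ, 1 ≤ S ∧ 1 ≤ T ∧ ∀ (r : ℕ), 1 ≤ r → ∀ (F : Fin 2 → MvPolynomial (Fin 2) (𝓞 K)),
      (∀ i, (F i).IsHomogeneous (p ^ r)) → ∀ (γ : Matrix (Fin 2) (Fin 2) (𝓞 K ⧸ P)),
      IsUnit γ.det → (∀ i, rd P (F i) = ∑ k, C (γ i k) * X k ^ (p ^ r)) →
      Good P (Fit F S) ((p ^ r) ^ S) ∧ (p ^ r) ^ S = P.absNorm ^ (r * T) := by
  classical
  have hchar := charP_quot hp hpP
  have : Fact p.Prime := ⟨hp⟩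
  let : Field (𝓞 K ⧸ P) := Ideal.Quotient.field P
  have hfin : Finite (𝓞 K ⧸ P) := Ideal.finiteQuotientOfFreeOfNeBot P hP0
  let : Fintype (𝓞 K ⧸ P) := Fintype.ofFinite _
  have hcard : Ideal.absNorm P = Fintype.card (𝓞 K ⧸ P) := by
    rw [Ideal.absNorm_apply, Submodule.cardQuot_apply, Nat.card_eq_fintype_card]
  obtain ⟨h, -, hh⟩ := FiniteField.card (𝓞 K ⧸ P) p
  set t : ℕ := (Fintype.card (Matrix (Fin 2) (Fin 2) (𝓞 K ⧸ P))).factorial with ht_def
  have ht : 1 ≤ t := Nat.factorial_pos _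
  refine ⟨t * h, t, Nat.mul_pos ht h.pos, ht, ?_⟩
  intro r hr F hhom γ hγ hF
  set T : Matrix (Fin 2) (Fin 2) (𝓞 K ⧸ P) → Matrix (Fin 2) (Fin 2) (𝓞 K ⧸ P) := fun B =>
      γ * B.map (fun x => x ^ (p ^ r)) with hT
  have hTinj : Function.Injective T := by
    intro A B hAB
    have h1 : A.map (fun x => x ^ (p ^ r)) = B.map (fun x => x ^ (p ^ r)) := by
      have h2 := congrArg (fun Z => γ⁻¹ * Z) hAB
      simp only [hT] at h2
      rwa [← Matrix.mul_assoc, ← Matrix.mul_assoc, Matrix.nonsing_inv_mul _ hγ, Matrix.one_mul,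
        Matrix.one_mul] at h2
    ext i j
    have h3 : A i j ^ (p ^ r) = B i j ^ (p ^ r) := congrFun (congrFun h1 i) j
    exact iterateFrobenius_inj (𝓞 K ⧸ P) p r (by
      rw [iterateFrobenius_def, iterateFrobenius_def]
      exact h3)
  have ht' : T^[t] 1 = 1 := by
    let σ : Equiv.Perm (Matrix (Fin 2) (Fin 2) (𝓞 K ⧸ P)) :=
      Equiv.ofBijective T (Finite.injective_iff_bijective.mp hTinj)
    have h1 : orderOf σ ∣ t := by
      have h2 : orderOf σ ∣ Fintype.card (Equiv.Perm (Matrix (Fin 2) (Fin 2) (𝓞 K ⧸ P))) :=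
        orderOf_dvd_card
      rwa [Fintype.card_perm] at h2
    have h3 : σ ^ t = 1 := orderOf_dvd_iff_pow_eq_one.mp h1
    have h4 : (σ ^ t) 1 = T^[t] 1 := by
      rw [Equiv.Perm.coe_pow]
      rfl
    rw [← h4, h3]
    rfl
  have hpow : (p ^ r) ^ (t * (h : ℕ)) = P.absNorm ^ (r * t) := by
    rw [hcard, hh, ← pow_mul, ← pow_mul]
    congr 1
    ring
  refine ⟨⟨Fit_hom hhom _, ⟨r * t, Nat.mul_pos hr ht, hpow⟩, ?_⟩, hpow⟩
  intro i
  rw [← rd_eq_iff, rd_Fit hp hpP hF]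
  have h1 : T^[t * h] 1 = 1 := by
    rw [Function.iterate_mul]
    exact Function.iterate_fixed ht' _
  rw [← hT, h1, map_pow]
  have h2 : rd P (X i) = X i := map_X _ _
  rw [h2, sum_one_mat]

/-- integral models with a uniform iterate congruent to a power of Frobenius -/
lemma uniform_model (v : FinitePlace K) {p : ℕ} (hp : p.Prime) (hv : v (p : K) < 1) :
    ∃ S T : ℕ, 1 ≤ S ∧ 1 ≤ T ∧ ∀ r : ℕ, 1 ≤ r → ∀ G : Fin 2 → MvPolynomial (Fin 2) K,
      (∀ i, (G i).IsHomogeneous (p ^ r)) → InsepAt v (p ^ r) G →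
      ∃ (b : 𝓞 K) (Gi : Fin 2 → MvPolynomial (Fin 2) (𝓞 K)), b ≠ 0 ∧
      (∀ i, MvPolynomial.map (algebraMap (𝓞 K) K) (Gi i) = C (b : K) * G i) ∧
      (∀ i, (Gi i).IsHomogeneous (p ^ r)) ∧ Good (mi v) (Fit Gi S) ((p ^ r) ^ S) ∧
      (p ^ r) ^ S = (mi v).absNorm ^ (r * T) := by
  classical
  have hpP : (p : 𝓞 K) ∈ mi v := by
    rw [← v_lt_one_iff]
    simpa using hv
  obtain ⟨S, T, hS, hT, hST⟩ := uniform_good (mi_ne_bot v) hp hpP
  refine ⟨S, T, hS, hT, ?_⟩
  intro r hr G hhom h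
  obtain ⟨b, Gi, hb, hGi⟩ := exists_int_forms v G h.integral
  have hq1 : 1 ≤ p ^ r := Nat.one_le_pow _ _ hp.pos
  have hb0 : b ≠ 0 := by
    rintro rfl
    exact hb (Submodule.zero_mem _)
  have hvb := v_eq_one_of_notMem v hb
  have hinj : Function.Injective (algebraMap (𝓞 K) K) := RingOfIntegers.coe_injective
  have hco : ∀ i m, (((Gi i).coeff m : 𝓞 K) : K) = (b : K) * (G i).coeff m := by
    intro i m
    have := congrArg (fun p => p.coeff m) (hGi i)
    simp only [coeff_map, coeff_C_mul] at this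
    exact this
  have hGhom : ∀ i, (Gi i).IsHomogeneous (p ^ r) := by
    intro i m hm
    apply hhom i
    intro h0
    apply hm
    have := hco i m
    rw [h0, mul_zero] at this
    exact RingOfIntegers.coe_eq_zero_iff.mp this
  set γ : Matrix (Fin 2) (Fin 2) (𝓞 K ⧸ mi v) := Matrix.of fun i l =>
    Ideal.Quotient.mk (mi v) ((Gi i).coeff (Finsupp.single l (p ^ r))) with hγ
  let : Field (𝓞 K ⧸ mi v) := Ideal.Quotient.field (mi v)
  have hdet : IsUnit γ.det := by
    rw [isUnit_iff_ne_zero, Matrix.det_fin_two]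
    simp only [hγ, Matrix.of_apply]
    rw [← map_mul, ← map_mul, ← map_sub, Ne, Ideal.Quotient.eq_zero_iff_mem, ← v_lt_one_iff]
    have h0 : (((Gi 0).coeff (Finsupp.single 0 (p ^ r)) * (Gi 1).coeff (Finsupp.single 1 (p ^ r)) -
        (Gi 0).coeff (Finsupp.single 1 (p ^ r)) * (Gi 1).coeff (Finsupp.single 0 (p ^ r)) :
        𝓞 K) : K) = (((Gi 0).coeff (Finsupp.single 0 (p ^ r)) : 𝓞 K) : K) *
        (((Gi 1).coeff (Finsupp.single 1 (p ^ r)) : 𝓞 K) : K) -
        (((Gi 0).coeff (Finsupp.single 1 (p ^ r)) : 𝓞 K) : K) *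
        (((Gi 1).coeff (Finsupp.single 0 (p ^ r)) : 𝓞 K) : K) := by
      push_cast
      ring
    rw [h0, hco, hco, hco, hco]
    have h1 : (b : K) * (G 0).coeff (Finsupp.single 0 (p ^ r)) *
        ((b : K) * (G 1).coeff (Finsupp.single 1 (p ^ r))) -
        (b : K) * (G 0).coeff (Finsupp.single 1 (p ^ r)) *
        ((b : K) * (G 1).coeff (Finsupp.single 0 (p ^ r))) =
        (b : K) * (b : K) * ((G 0).coeff (Finsupp.single 0 (p ^ r)) *
          (G 1).coeff (Finsupp.single 1 (p ^ r)) -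
        (G 0).coeff (Finsupp.single 1 (p ^ r)) * (G 1).coeff (Finsupp.single 0 (p ^ r))) := by
      ring
    rw [h1, map_mul, map_mul, h.good, hvb]
    norm_num
  have hrd : ∀ i, rd (mi v) (Gi i) = ∑ l, C (γ i l) * X l ^ (p ^ r) := by
    intro i
    ext m
    have h1 : (rd (mi v) (Gi i)).coeff m = Ideal.Quotient.mk (mi v) ((Gi i).coeff m) :=
      coeff_map _ _ _
    rw [h1, coeff_sum]
    simp only [coeff_C_mul, coeff_X_pow]
    by_cases hm0 : Finsupp.single 0 (p ^ r) = m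
    · rw [← hm0, Fin.sum_univ_two, if_pos rfl, if_neg, mul_one, mul_zero, add_zero]
      · rfl
      · intro h2
        exact absurd (single_inj hq1 h2) (by decide)
    · by_cases hm1 : Finsupp.single 1 (p ^ r) = m
      · rw [← hm1, Fin.sum_univ_two, if_neg, if_pos rfl, mul_one, mul_zero, zero_add]
        · rfl
        · intro h2
          exact absurd (single_inj hq1 h2) (by decide)
      · rw [Fin.sum_univ_two, if_neg hm0, if_neg hm1, mul_zero, mul_zero, add_zero,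
          Ideal.Quotient.eq_zero_iff_mem, ← v_lt_one_iff, hco, map_mul, hvb, one_mul]
        exact h.insep i m (Ne.symm hm0) (Ne.symm hm1)
  obtain ⟨hgood, hpow⟩ := hST r hr Gi hGhom γ hdet hrd
  exact ⟨b, Gi, hb0, hGi, hGhom, hgood, hpow⟩

end Uniform

section Dec

variable {K : Type*} [Field K] [NumberField K] {E : Type*} [Field E] [NumberField E] [Algebra K E]
  [IsGalois K E] {P : Ideal (𝓞 K)} [hP : P.IsMaximal]

/-- the elements of the decomposition groups act as powers of Frobenius -/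
lemma dec_frob (hP0 : P ≠ ⊥) {v : FinitePlace E} (hv : v ∈ TP E P) {σ : Gal(E/K)}
    (hσ : σ • mi v = mi v) :
    ∃ i : ℕ, 1 ≤ i ∧ ∀ x : 𝓞 E, σ • x - x ^ (P.absNorm ^ i) ∈ mi v := by
  classical
  have hlo := liesOver_of_mem hP0 hv
  obtain ⟨τ, hτ, hτ'⟩ := exists_frob (K := K) hP0 hv 1
  rw [pow_one] at hτ'
  have hinv : τ⁻¹ • mi v = mi v := by rw [inv_smul_eq_iff, hτ]
  have hg : (σ * τ⁻¹) • mi v = mi v := by rw [mul_smul, hinv, hσ]
  letI := Ideal.Quotient.field (mi v)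
  letI := Ideal.Quotient.field P
  haveI : Finite (𝓞 E ⧸ mi v) := Ideal.finiteQuotientOfFreeOfNeBot (mi v) (mi_ne_bot v)
  haveI : Finite (𝓞 K ⧸ P) := Ideal.finiteQuotientOfFreeOfNeBot P hP0
  letI : Fintype (𝓞 K ⧸ P) := Fintype.ofFinite _
  have hF : Fintype.card (𝓞 K ⧸ P) = P.absNorm := by
    rw [Ideal.absNorm_apply, Submodule.cardQuot_apply, Nat.card_eq_fintype_card]
  obtain ⟨⟨n, hn⟩, hfr⟩ := (FiniteField.bijective_frobeniusAlgEquivOfAlgebraic_pow
    (𝓞 K ⧸ P) (𝓞 E ⧸ mi v)).2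
    (Ideal.Quotient.stabilizerHom (mi v) P Gal(E/K) ⟨σ * τ⁻¹, MulAction.mem_stabilizer_iff.2 hg⟩)
  have hgx : ∀ x : 𝓞 E, (σ * τ⁻¹) • x - x ^ P.absNorm ^ n ∈ mi v := by
    intro x
    have h1 := congrArg (fun f => f (Ideal.Quotient.mk (mi v) x)) hfr
    simp only at h1
    rw [Ideal.Quotient.stabilizerHom_apply] at h1
    rw [← Ideal.Quotient.eq_zero_iff_mem, map_sub, map_pow, sub_eq_zero]
    rw [AlgEquiv.coe_pow, FiniteField.coe_frobeniusAlgEquivOfAlgebraic_iterate, hF] at h1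
    exact h1.symm
  refine ⟨n + 1, by omega, fun x => ?_⟩
  have h1 := hgx (τ • x)
  rw [smul_smul, inv_mul_cancel_right] at h1
  have h2 : (τ • x) ^ P.absNorm ^ n - (x ^ P.absNorm) ^ P.absNorm ^ n ∈ mi v :=
    Ideal.mem_of_dvd _ (sub_dvd_pow_sub_pow _ _ _) (hτ' x)
  have h3 := (mi v).add_mem h1 h2
  rw [sub_add_sub_cancel, ← pow_mul, ← pow_succ'] at h3
  exact h3

/-- powers of such elements -/
lemma dec_pow {v : FinitePlace E} {σ : Gal(E/K)} (hst : σ • mi v = mi v) {N : ℕ}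
    (hσ' : ∀ x : 𝓞 E, σ • x - x ^ N ∈ mi v) (k : ℕ) :
    σ ^ k • mi v = mi v ∧ ∀ x : 𝓞 E, σ ^ k • x - x ^ (N ^ k) ∈ mi v := by
  refine ⟨pow_smul_mi hst k, ?_⟩
  induction k with
  | zero => simp
  | succ k ih =>
    intro x
    have h1 := hσ' (σ ^ k • x)
    have h2 : (σ ^ k • x) ^ N - (x ^ N ^ k) ^ N ∈ mi v := by
      obtain ⟨c, hc⟩ := sub_dvd_pow_sub_pow (σ ^ k • x) (x ^ N ^ k) N
      rw [hc]
      exact (mi v).mul_mem_right _ (ih x)
    have h3 := (mi v).add_mem h1 h2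
    rw [sub_add_sub_cancel, ← pow_mul, ← pow_succ, smul_smul, ← pow_succ'] at h3
    exact h3

end Dec

end

end Pool.Agent.R976.MP
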