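import Mathlib
import Pool.Agent.R976.MP.Central

/-!
# Central Frobenius elements for fields generated by periodic points
-/

set_option autoImplicit false
set_option linter.unusedSectionVars false

namespace Pool.Agent.R976.MP

open NumberField Module MvPolynomial IsDedekindDomain Filter Topology
open Pool.Agent.H420R3 Pool.Agent.Y740.RL
open scoped Pointwise

noncomputable section

variable {K : Type} [Field K] [NumberField K]

/-- the rational maps of degree `p ^ r`, `1 ≤ r ≤ R`, over `K` which have good, purely inseparable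
reduction at `v` in some coordinates over `K` -/
def ClassF (v : FinitePlace K) (p R : ℕ) (F : Fin 2 → MvPolynomial (Fin 2) K) : Prop :=
  ∃ r : ℕ, 1 ≤ r ∧ r ≤ R ∧ (∀ i, (F i).IsHomogeneous (p ^ r)) ∧
    ∃ (A : Matrix (Fin 2) (Fin 2) K) (G : Fin 2 → MvPolynomial (Fin 2) K), A.det ≠ 0 ∧
      (∀ i, (G i).IsHomogeneous (p ^ r)) ∧ Conj A F G ∧ InsepAt v (p ^ r) G

/-- the periodic points of these maps -/
def PerGen (v : FinitePlace K) (p R : ℕ) (E : Type) [Field E] [Algebra K E] : Set E :=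
  {t | ∃ F : Fin 2 → MvPolynomial (Fin 2) K, ClassF v p R F ∧ t ∈ PerSet F E}

/-- the elements of the largest abelian extension of `K` in `E` -/
def AbSet (K : Type) [Field K] (E : Type) [Field E] [Algebra K E] : Set E :=
  {t | ∀ σ τ : Gal(E/K), σ (τ t) = τ (σ t)}

variable {E : Type} [Field E] [NumberField E] [Algebra K E]

/-- the data attached to a periodic point -/
lemma pt_data (v : FinitePlace K) {p : ℕ} {S T : ℕ}
    (hST : ∀ r : ℕ, 1 ≤ r → ∀ G : Fin 2 → MvPolynomial (Fin 2) K,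
      (∀ i, (G i).IsHomogeneous (p ^ r)) → InsepAt v (p ^ r) G →
      ∃ (b : 𝓞 K) (Gi : Fin 2 → MvPolynomial (Fin 2) (𝓞 K)), b ≠ 0 ∧
      (∀ i, MvPolynomial.map (algebraMap (𝓞 K) K) (Gi i) = C (b : K) * G i) ∧
      (∀ i, (Gi i).IsHomogeneous (p ^ r)) ∧ Good (mi v) (Fit Gi S) ((p ^ r) ^ S) ∧
      (p ^ r) ^ S = (mi v).absNorm ^ (r * T)) {R : ℕ} {t : E} (ht : t ∈ PerGen v p R E) :
    ∃ (r : ℕ) (Gi : Fin 2 → MvPolynomial (Fin 2) (𝓞 K)) (x : Option E), 1 ≤ r ∧ r ≤ R ∧
      (p ^ r) ^ S = (mi v).absNorm ^ (r * T) ∧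
      (∀ n, 1 ≤ n → Good (mi v) (Fit Gi (S * n)) ((p ^ r) ^ (S * n)) ∧
        Per (Fit Gi (S * n)) x) ∧ ∀ g : Gal(E/K), g • x = x → g t = t := by
  obtain ⟨F, ⟨r, hr, hrR, hF, A, G, hA, hGhom, hconj, hred⟩, j, hj, c, hc, hper⟩ := ht
  obtain ⟨b, Gi, hb, hGi, hGih, hgood, hpow⟩ := hST r hr G hGhom hred
  refine ⟨r, Gi, pt (lin (A.map (algebraMap K E)) ![t, 1]), hr, hrR, hpow, fun n hn => ?_,
    fun g hg => fix_of_pt hA hg⟩
  have hgn := (good_mul hGih hgood hn).1
  refine ⟨hgn, ?_⟩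
  refine per_lin (c := c) hA hconj hGhom hb hGi (mi_ne_bot v) hgn hF ?_ hj hc hper
  intro h
  have := congrFun h 1
  simp at this

variable [IsGalois K E]

/-- **Main lemma.** -/
theorem central (v : FinitePlace K) {p : ℕ} (hp : p.Prime) (hv : v (p : K) < 1) (R : ℕ) :
    ∃ a : ℕ, 1 ≤ a ∧ ∀ (E : Type) [Field E] [NumberField E] [Algebra K E] [IsGalois K E],
      (Algebra.adjoin K (AbSet K E ∪ PerGen v p R E) = ⊤ → FewConj (mi v) E 1 a) ∧
      (Algebra.adjoin K (PerGen v p R E) = ⊤ → RamLe (mi v) E 1) := by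
  classical
  obtain ⟨S, T, hS, hT, hST⟩ := uniform_model v hp hv
  refine ⟨R.factorial * T, Nat.mul_pos (Nat.factorial_pos _) hT, ?_⟩
  intro E _ _ _ _
  have hP0 := mi_ne_bot v
  -- automorphisms fixing generators
  have hone : ∀ S : Set E, Algebra.adjoin K S = ⊤ → ∀ g : Gal(E/K), (∀ t ∈ S, g t = t) →
      g = 1 := by
    intro S hgen g hg
    have h1 : (g : E →ₐ[K] E) = AlgHom.id K E := AlgHom.ext_of_adjoin_eq_top hgen hg
    ext x
    exact congrArg (fun φ : E →ₐ[K] E => φ x) h1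
  have hplace : ∀ 𝔓 : Ideal (𝓞 E), 𝔓.IsMaximal → 𝔓.LiesOver (mi v) →
      ∃ w : FinitePlace E, w ∈ TP E (mi v) ∧ mi w = 𝔓 := by
    intro 𝔓 h𝔓 hlo
    have hbot : 𝔓 ≠ ⊥ := by
      intro h0
      apply hP0
      rw [hlo.over, h0]
      exact Ideal.comap_bot_of_injective _ (FaithfulSMul.algebraMap_injective (𝓞 K) (𝓞 E))
    let Q : HeightOneSpectrum (𝓞 E) := ⟨𝔓, h𝔓.isPrime, hbot⟩
    let w : FinitePlace E := FinitePlace.mk Q
    have hmi : mi w = 𝔓 := by
      have h1 : w.maximalIdeal = Q := FinitePlace.maximalIdeal_mk Q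
      change w.maximalIdeal.asIdeal = 𝔓
      rw [h1]
    refine ⟨w, ?_, hmi⟩
    rw [mem_TP hP0, hmi]
    exact ⟨h𝔓.isPrime, hlo⟩
  constructor
  · intro hgen 𝔓 h𝔓 hlo σ hσ
    obtain ⟨w, hw, rfl⟩ := hplace 𝔓 h𝔓 hlo
    obtain ⟨i, hi, hσi⟩ := dec_frob hP0 hw hσ
    obtain ⟨hst, hpow⟩ := dec_pow hσ hσi (R.factorial * T)
    set g := σ ^ (R.factorial * T) with hg
    have hcomm : ∀ τ : Gal(E/K), τ * g * τ⁻¹ = g := by
      intro τ
      have h0 : g⁻¹ * (τ * g * τ⁻¹) = 1 := by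
        apply hone _ hgen
        rintro t (ht | ht)
        · change g⁻¹ (τ (g (τ⁻¹ t))) = t
          rw [ht g τ⁻¹]
          change g⁻¹ ((τ * τ⁻¹) (g t)) = t
          rw [mul_inv_cancel]
          change (g⁻¹ * g) t = t
          rw [inv_mul_cancel]
          rfl
        obtain ⟨r, Gi, x, hr, hrR, hq, hGx, hfix⟩ := pt_data v hST ht
        apply hfix
        obtain ⟨m, hm⟩ : r ∣ R.factorial := Nat.dvd_factorial (by omega) hrR
        have hm1 : 1 ≤ m := by
          rcases Nat.eq_zero_or_pos m with h0 | h0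
          · rw [h0, mul_zero] at hm
            exact absurd hm (Nat.factorial_ne_zero R)
          · exact h0
        have hk : 1 ≤ i * m := Nat.mul_pos hi hm1
        obtain ⟨hgood, hper⟩ := hGx (i * m) hk
        have hexp : (p ^ r) ^ (S * (i * m)) = ((mi v).absNorm ^ i) ^ (R.factorial * T) := by
          rw [pow_mul, hq, ← pow_mul, ← pow_mul, hm]
          congr 1
          ring
        have hact : ∀ y : Option E, Per (Fit Gi (S * (i * m))) y →
            g • y = phi (Fit Gi (S * (i * m))) y := by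
          intro y hy
          refine (per_eq (hgood.red_at hP0 hw) hy.phi (hy.smul g)
            (frob_of_ring hgood hP0 hw hst ?_ y)).symm
          rw [hexp]
          exact hpow
        rw [mul_smul, mul_smul, mul_smul, hact _ (hper.smul _), ← phi_smul', smul_inv_smul,
          ← hact _ hper, inv_smul_smul]
      rw [inv_mul_eq_one] at h0
      exact h0.symm
    have h1 : (Set.range fun τ : Gal(E/K) => τ * g * τ⁻¹) ⊆ {g} := by
      rintro _ ⟨τ, rfl⟩
      exact hcomm τ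
    exact (Set.ncard_le_ncard h1 (Set.finite_singleton _)).trans (by simp)
  · intro hgen 𝔓 h𝔓 hlo
    obtain ⟨w, hw, rfl⟩ := hplace 𝔓 h𝔓 hlo
    rw [← card_inertia_base (K := K) (mi w)]
    have h1 : (mi w).inertia Gal(E/K) = ⊥ := by
      rw [Subgroup.eq_bot_iff_forall]
      intro g hg
      apply hone _ hgen
      intro t ht
      obtain ⟨r, Gi, x, hr, hrR, hq, hGx, hfix⟩ := pt_data v hST ht
      apply hfix
      obtain ⟨hgood, hper⟩ := hGx 1 le_rfl
      exact (per_eq (hgood.red_at hP0 hw) hper (hper.smul g) (dv_inertia hg x)).symm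
    rw [h1]
    simp

end

end Pool.Agent.R976.MP
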