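import Mathlib
import Pool.Agent.H627.LP.Fin
import Pool.Agent.R976.MP.Central2

/-!
# Central Frobenius elements for fields generated by periodic points of projective spaces
-/

set_option autoImplicit false
set_option linter.unusedSectionVars false

namespace Pool.Agent.R976.MP.Proj

open NumberField Module MvPolynomial Filter Topology
open Pool.Agent.W238.Leh Pool.Agent.H627.LP
open Pool.Agent.H420R3 (mi nv TP ew exists_frac v_lt_one_iff mi_ne_bot)
open scoped Pointwise

noncomputable section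

/-! ### growth of the depth -/

lemma gq_growth {q : ℕ} (hq : 2 ≤ q) {s : ℝ} (hs : 0 < s) (n : ℕ) :
    s ≤ (H420R3.gq q)^[n] s ∧ n * min s 1 ≤ (H420R3.gq q)^[n] s := by
  have hq' : (2 : ℝ) ≤ q := by exact_mod_cast hq
  induction n with
  | zero => simp [hs.le]
  | succ n ih =>
    obtain ⟨h1, h2⟩ := ih
    rw [Function.iterate_succ_apply']
    set t := (H420R3.gq q)^[n] s with ht
    have h3 : t + min s 1 ≤ H420R3.gq q t := by
      unfold H420R3.gq
      refine le_min ?_ ?_
      · have : min s 1 ≤ t := (min_le_left _ _).trans h1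
        nlinarith
      · linarith [min_le_right s (1 : ℝ)]
    have h4 : 0 ≤ min s 1 := le_min hs.le zero_le_one
    refine ⟨by linarith, ?_⟩
    push_cast
    linarith

section Local

variable {K L : Type} [Field K] [NumberField K] [Field L] [NumberField L] [Algebra K L] {N : ℕ}
  {F : Fin (N + 1) → MvPolynomial (Fin (N + 1)) K} {q : ℕ}

/-- iterates of a periodic point -/
lemma per_mul (hF : ∀ i, (F i).IsHomogeneous q) {z : Fin (N + 1) → L} {j : ℕ} {c : L}
    (hper : (act F)^[j] z = c • z) (n : ℕ) : ∃ d : L, (act F)^[j * n] z = d • z := by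
  induction n with
  | zero => exact ⟨1, by simp⟩
  | succ n ih =>
    obtain ⟨d, hd⟩ := ih
    refine ⟨d ^ (q ^ j) * c, ?_⟩
    rw [Nat.mul_succ, Nat.add_comm (j * n) j, Function.iterate_add_apply, hd, act_iter_smul hF, hper,
      smul_smul]

/-- close periodic points are equal -/
lemma per_unique {v : FinitePlace L} {ρ : ℝ} (hR : RedN v F q (Real.exp (-ρ)))
    (hF : ∀ i, (F i).IsHomogeneous q) {s : ℝ} (hs : 0 < s) {z w : Fin (N + 1) → L}
    (hc : Cl v (Real.exp (-(ρ * s))) z w) {j : ℕ} (hj : 1 ≤ j) {c d : L}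
    (hz : (act F)^[j] z = c • z) (hw : (act F)^[j] w = d • w) (i k : Fin (N + 1)) :
    z i * w k = z k * w i := by
  have hρ : 0 < ρ := by
    have := hR.lt
    rw [Real.exp_lt_one_iff] at this
    linarith
  have hmin : 0 < min s 1 := lt_min hs one_pos
  have key : ∀ n : ℕ, v (z i * w k - z k * w i) ≤ Real.exp (-(ρ * min s 1 * n)) := by
    intro n
    obtain ⟨cn, hcn⟩ := per_mul hF hz n
    obtain ⟨dn, hdn⟩ := per_mul hF hw n
    have h1 := hR.iter hs.le hc (j * n)
    rw [hcn, hdn] at h1
    have h2 := h1.wedge_smul i k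
    rw [hc.hz, hc.hw, mul_one, mul_one] at h2
    refine h2.trans ?_
    rw [Real.exp_le_exp, neg_le_neg_iff]
    have h3 := (gq_growth hR.two_le hs (j * n)).2
    have h4 : (n : ℝ) * min s 1 ≤ ((j * n : ℕ) : ℝ) * min s 1 := by
      apply mul_le_mul_of_nonneg_right _ hmin.le
      exact_mod_cast Nat.le_mul_of_pos_left n (by omega)
    calc ρ * min s 1 * n = ρ * (n * min s 1) := by ring
      _ ≤ ρ * (H420R3.gq q)^[j * n] s := by
        apply mul_le_mul_of_nonneg_left _ hρ.le
        linarith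
  have hlim : Tendsto (fun n : ℕ => Real.exp (-(ρ * min s 1 * n))) atTop (𝓝 0) := by
    apply Real.tendsto_exp_neg_atTop_nhds_zero.comp
    exact (tendsto_natCast_atTop_atTop (R := ℝ)).const_mul_atTop (mul_pos hρ hmin)
  have h0 : v (z i * w k - z k * w i) ≤ 0 := ge_of_tendsto' hlim key
  have h1 : v (z i * w k - z k * w i) = 0 := le_antisymm h0 (H420R3.v_nonneg v _)
  rw [map_eq_zero] at h1
  exact sub_eq_zero.mp h1

/-- proportional vectors -/
lemma prop_of_wedge {z w : Fin (N + 1) → L} (hw : w ≠ 0) (hz : z ≠ 0)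
    (h : ∀ i k, z i * w k = z k * w i) : ∃ e : L, e ≠ 0 ∧ z = e • w := by
  obtain ⟨k, hk⟩ := Function.ne_iff.mp hw
  have hk' : w k ≠ 0 := hk
  have h1 : z = (z k / w k) • w := by
    funext i
    simp only [Pi.smul_apply, smul_eq_mul]
    rw [div_mul_eq_mul_div, eq_div_iff hk', h i k]
  refine ⟨z k / w k, ?_, h1⟩
  intro h0
  rw [h0, zero_smul] at h1
  exact hz h1

/-- an automorphism which is congruent to an iterate of Frobenius acts on the periodic points as
an iterate of the map -/
lemma act_frob {P : Ideal (𝓞 K)} [hP : P.IsMaximal] (hP0 : P ≠ ⊥) (hG : GoodN P F q)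
    {v : FinitePlace L} (hv : v ∈ TP L P) {τ : Gal(L/K)} {m : ℕ} (hfr : FrobAt v τ (q ^ m))
    {z : Fin (N + 1) → L} (hz : z ≠ 0) {j : ℕ} (hj : 1 ≤ j) {c : L}
    (hper : (act F)^[j] z = c • z) :
    ∃ e : L, e ≠ 0 ∧ (fun i => τ (z i)) = e • (act F)^[m] z := by
  have hR := hG.red_at hP0 hv
  obtain ⟨c₀, d₀, hcl⟩ := init_close hG.hom hR hfr hz le_rfl
  have hpos : (0 : ℝ) < (mi v).ramificationIdx (𝓞 K) := by
    exact_mod_cast H420R3.ramIdx_pos (K := K) v
  have hs : (0 : ℝ) < 1 / ((mi v).ramificationIdx (𝓞 K) : ℝ) := by positivity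
  have h1 : (act F)^[j] ((act F)^[m] z) = c ^ (q ^ m) • (act F)^[m] z := by
    rw [← Function.iterate_add_apply, Nat.add_comm j m, Function.iterate_add_apply, hper,
      act_iter_smul hG.hom]
  have h2 : (act F)^[j] (fun i => τ (z i)) = τ c • fun i => τ (z i) := by
    rw [act_gal_iter, hper]
    funext i
    simp only [Pi.smul_apply, smul_eq_mul, map_mul]
  have h3 : ∀ (a e : L) (w : Fin (N + 1) → L), a ≠ 0 → (act F)^[j] w = e • w →
      (act F)^[j] (a • w) = (a ^ (q ^ j) * e * a⁻¹) • (a • w) := by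
    intro a e w ha he
    rw [act_iter_smul hG.hom, he, smul_smul, smul_smul, mul_assoc (a ^ q ^ j * e), inv_mul_cancel₀ ha,
      mul_one]
  have hc0 : c₀ ≠ 0 := by
    rintro rfl
    have h4 := hcl.hz
    rw [zero_smul] at h4
    have h5 : nmf v (0 : Fin (N + 1) → L) = 0 := by
      unfold nmf
      simp
    rw [h5] at h4
    norm_num at h4
  have hd0 : d₀ ≠ 0 := by
    rintro rfl
    have h4 := hcl.hw
    rw [zero_smul] at h4
    have h5 : nmf v (0 : Fin (N + 1) → L) = 0 := by
      unfold nmf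
      simp
    rw [h5] at h4
    norm_num at h4
  have hwedge := per_unique hR hG.hom hs hcl hj (h3 _ _ _ hc0 h1) (h3 _ _ _ hd0 h2)
  have hw1 : (act F)^[m] z ≠ 0 := by
    intro h0
    have h4 := hcl.hz
    rw [h0, smul_zero] at h4
    have h5 : nmf v (0 : Fin (N + 1) → L) = 0 := by
      unfold nmf
      simp
    rw [h5] at h4
    norm_num at h4
  have hw2 : (fun i => τ (z i)) ≠ 0 := by
    intro h0
    apply hz
    funext i
    have := congrFun h0 i
    simpa using this
  obtain ⟨e, he, he'⟩ := prop_of_wedge hw1 hw2 (fun i k => by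
    have h4 := hwedge i k
    simp only [Pi.smul_apply, smul_eq_mul] at h4
    have h5 : (c₀ * d₀) * (((act F)^[m] z i) * τ (z k)) =
        (c₀ * d₀) * (((act F)^[m] z k) * τ (z i)) := by
      linear_combination h4
    have h6 := mul_left_cancel₀ (mul_ne_zero hc0 hd0) h5
    linear_combination -h6)
  exact ⟨e, he, he'⟩

end Local

end

end Pool.Agent.R976.MP.Proj
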