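import Mathlib
import Pool.Agent.R976.MP.Proj

/-!
# Central Frobenius elements for fields generated by periodic points of projective spaces, II
-/

set_option autoImplicit false
set_option linter.unusedSectionVars false

namespace Pool.Agent.R976.MP.Proj

open NumberField Module MvPolynomial
open Pool.Agent.W238.Leh Pool.Agent.H627.LP
open Pool.Agent.H420R3 (mi nv TP ew exists_frac v_lt_one_iff mi_ne_bot)
open scoped Pointwise

noncomputable section

section Uniform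

variable {K : Type} [Field K] [NumberField K] {P : Ideal (𝓞 K)} [hP : P.IsMaximal]

/-- a uniform iterate which is congruent to a power of Frobenius -/
lemma uniform_good (hP0 : P ≠ ⊥) {p : ℕ} (hp : p.Prime) (hpP : (p : 𝓞 K) ∈ P) (R : ℕ) :
    ∃ S T : ℕ, 1 ≤ S ∧ 1 ≤ T ∧ ∀ (N : ℕ), N ≤ R → ∀ (r : ℕ), 1 ≤ r →
      ∀ (F : Fin (N + 1) → MvPolynomial (Fin (N + 1)) (𝓞 K)),
      (∀ i, (F i).IsHomogeneous (p ^ r)) →
      ∀ (γ : Matrix (Fin (N + 1)) (Fin (N + 1)) (𝓞 K ⧸ P)),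
      IsUnit γ.det → (∀ i, rd P (F i) = ∑ k, C (γ i k) * X k ^ (p ^ r)) →
      GoodN P (Fit (fun j => map (algebraMap (𝓞 K) K) (F j)) S) ((p ^ r) ^ S) ∧
        (p ^ r) ^ S = P.absNorm ^ (r * T) := by
  classical
  have hchar := H420R3.charP_quot hp hpP
  have : Fact p.Prime := ⟨hp⟩
  let : Field (𝓞 K ⧸ P) := Ideal.Quotient.field P
  have hfin : Finite (𝓞 K ⧸ P) := Ideal.finiteQuotientOfFreeOfNeBot P hP0
  let : Fintype (𝓞 K ⧸ P) := Fintype.ofFinite _
  have hcard : Ideal.absNorm P = Fintype.card (𝓞 K ⧸ P) := by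
    rw [Ideal.absNorm_apply, Submodule.cardQuot_apply, Nat.card_eq_fintype_card]
  obtain ⟨h, -, hh⟩ := FiniteField.card (𝓞 K ⧸ P) p
  set cd : ℕ → ℕ := fun N =>
    (Fintype.card (Matrix (Fin (N + 1)) (Fin (N + 1)) (𝓞 K ⧸ P))).factorial with hcd
  set t : ℕ := ∏ N ∈ Finset.range (R + 1), cd N with ht_def
  have ht : 1 ≤ t := Finset.prod_pos fun N _ => Nat.factorial_pos _
  refine ⟨t * h, t, Nat.mul_pos ht h.pos, ht, ?_⟩
  intro N hN r hr F hhom γ hγ hF
  set T : Matrix (Fin (N + 1)) (Fin (N + 1)) (𝓞 K ⧸ P) →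
      Matrix (Fin (N + 1)) (Fin (N + 1)) (𝓞 K ⧸ P) := fun B =>
      γ * B.map (fun x => x ^ (p ^ r)) with hT
  have hTinj : Function.Injective T := by
    intro A B hAB
    have h1 : A.map (fun x => x ^ (p ^ r)) = B.map (fun x => x ^ (p ^ r)) := by
      have h2 := congrArg (fun Z => γ⁻¹ * Z) hAB
      simp only [hT] at h2
      rwa [← Matrix.mul_assoc, ← Matrix.mul_assoc, Matrix.nonsing_inv_mul _ hγ, Matrix.one_mul,
        Matrix.one_mul] at h2
    ext i j
    have h3 : A i j ^ (p ^ r) = B i j ^ (p ^ r) := congrFun (congrFun h1 i) j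
    exact iterateFrobenius_inj (𝓞 K ⧸ P) p r (by
      rw [iterateFrobenius_def, iterateFrobenius_def]
      exact h3)
  have ht' : T^[t] 1 = 1 := by
    let σ : Equiv.Perm (Matrix (Fin (N + 1)) (Fin (N + 1)) (𝓞 K ⧸ P)) :=
      Equiv.ofBijective T (Finite.injective_iff_bijective.mp hTinj)
    have h1 : orderOf σ ∣ t := by
      have h2 : orderOf σ ∣
          Fintype.card (Equiv.Perm (Matrix (Fin (N + 1)) (Fin (N + 1)) (𝓞 K ⧸ P))) :=
        orderOf_dvd_card
      rw [Fintype.card_perm] at h2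
      exact h2.trans (Finset.dvd_prod_of_mem cd (Finset.mem_range.mpr (by omega)))
    have h3 : σ ^ t = 1 := orderOf_dvd_iff_pow_eq_one.mp h1
    have h4 : (σ ^ t) 1 = T^[t] 1 := by
      rw [Equiv.Perm.coe_pow]
      rfl
    rw [← h4, h3]
    rfl
  have hpow : (p ^ r) ^ (t * (h : ℕ)) = P.absNorm ^ (r * t) := by
    rw [hcard, hh, ← pow_mul, ← pow_mul]
    congr 1
    ring
  have hFK : ∀ i, (map (algebraMap (𝓞 K) K) (F i)).IsHomogeneous (p ^ r) := fun i =>
    (hhom i).map _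
  refine ⟨⟨Fit_hom hFK _, ⟨r * t, Nat.mul_pos hr ht, hpow⟩, ?_⟩, hpow⟩
  intro i m
  have h0 : rd P (Fit F (t * h) i) = rd P (X i ^ ((p ^ r) ^ (t * (h : ℕ)))) := by
    rw [rd_Fit hp hpP hF]
    have h1 : T^[t * h] 1 = 1 := by
      rw [Function.iterate_mul]
      exact Function.iterate_fixed ht' _
    rw [← hT, h1, rd, map_pow, map_X, sum_one_mat]
  refine ⟨(Fit F (t * h) i - X i ^ ((p ^ r) ^ (t * (h : ℕ)))).coeff m, ?_, ?_⟩
  · rw [← Ideal.Quotient.eq_zero_iff_mem, ← coeff_map, map_sub]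
    have h1 : map (Ideal.Quotient.mk P) (Fit F (t * h) i) =
        map (Ideal.Quotient.mk P) (X i ^ ((p ^ r) ^ (t * (h : ℕ)))) := h0
    rw [h1, sub_self, coeff_zero]
  · have h1 : (Fit (fun j => map (algebraMap (𝓞 K) K) (F j)) (t * h) i -
        X i ^ ((p ^ r) ^ (t * (h : ℕ)))) = map (algebraMap (𝓞 K) K)
        (Fit F (t * h) i - X i ^ ((p ^ r) ^ (t * (h : ℕ)))) := by
      rw [map_sub, Fit_map, map_pow, map_X]
    rw [h1, coeff_map]

/-- integral models with a uniform iterate congruent to a power of Frobenius -/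
lemma uniform_model (v : FinitePlace K) {p : ℕ} (hp : p.Prime) (hv : v (p : K) < 1) (R : ℕ) :
    ∃ S T : ℕ, 1 ≤ S ∧ 1 ≤ T ∧ ∀ N : ℕ, N ≤ R → ∀ r : ℕ, 1 ≤ r →
      ∀ G : Fin (N + 1) → MvPolynomial (Fin (N + 1)) K,
      (∀ i, (G i).IsHomogeneous (p ^ r)) → InsepN v (p ^ r) G →
      ∃ b : 𝓞 K, b ≠ 0 ∧ GoodN (mi v) (Fit (fun i => C (b : K) * G i) S) ((p ^ r) ^ S) ∧
        (p ^ r) ^ S = (mi v).absNorm ^ (r * T) := by
  classical
  have hpP : (p : 𝓞 K) ∈ mi v := by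
    rw [← v_lt_one_iff]
    simpa using hv
  obtain ⟨S, T, hS, hT, hST⟩ := uniform_good (mi_ne_bot v) hp hpP R
  refine ⟨S, T, hS, hT, ?_⟩
  intro N hN r hr G hhom h
  obtain ⟨b, Gi, hb, hGi⟩ := exists_int_forms v G h.integral
  have hq1 : 1 ≤ p ^ r := Nat.one_le_pow _ _ hp.pos
  have hb0 : b ≠ 0 := by
    rintro rfl
    exact hb (Submodule.zero_mem _)
  have hvb := H420R3.v_eq_one_of_notMem v hb
  have hco : ∀ i m, (((Gi i).coeff m : 𝓞 K) : K) = (b : K) * (G i).coeff m := by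
    intro i m
    have := congrArg (fun p => p.coeff m) (hGi i)
    simp only [coeff_map, coeff_C_mul] at this
    exact this
  have hGhom : ∀ i, (Gi i).IsHomogeneous (p ^ r) := by
    intro i m hm
    apply hhom i
    intro h0
    apply hm
    have := hco i m
    rw [h0, mul_zero] at this
    exact RingOfIntegers.coe_eq_zero_iff.mp this
  set γ : Matrix (Fin (N + 1)) (Fin (N + 1)) (𝓞 K ⧸ mi v) := Matrix.of fun i l =>
    Ideal.Quotient.mk (mi v) ((Gi i).coeff (Finsupp.single l (p ^ r))) with hγ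
  let : Field (𝓞 K ⧸ mi v) := Ideal.Quotient.field (mi v)
  have hdet : IsUnit γ.det := by
    set γ₀ : Matrix (Fin (N + 1)) (Fin (N + 1)) (𝓞 K) := Matrix.of fun i l =>
      (Gi i).coeff (Finsupp.single l (p ^ r)) with hγ₀
    have h1 : γ.det = Ideal.Quotient.mk (mi v) γ₀.det := by
      rw [RingHom.map_det]
      rfl
    have h2 : ((γ₀.det : 𝓞 K) : K) = (b : K) ^ (N + 1) *
        Matrix.det (Matrix.of fun i j => (G i).coeff (Finsupp.single j (p ^ r))) := by
      have h3 : ((γ₀.det : 𝓞 K) : K) = ((algebraMap (𝓞 K) K).mapMatrix γ₀).det :=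
        RingHom.map_det _ _
      have h4 : (algebraMap (𝓞 K) K).mapMatrix γ₀ =
          (b : K) • Matrix.of fun i j => (G i).coeff (Finsupp.single j (p ^ r)) := by
        ext i j
        exact hco i _
      rw [h3, h4, Matrix.det_smul, Fintype.card_fin]
    rw [isUnit_iff_ne_zero, h1, Ne, Ideal.Quotient.eq_zero_iff_mem, ← v_lt_one_iff, h2, map_mul,
      map_pow, hvb, h.good]
    norm_num
  have hrd : ∀ i, rd (mi v) (Gi i) = ∑ l, C (γ i l) * X l ^ (p ^ r) := by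
    intro i
    ext m
    have h1 : (rd (mi v) (Gi i)).coeff m = Ideal.Quotient.mk (mi v) ((Gi i).coeff m) :=
      coeff_map _ _ _
    rw [h1, coeff_sum]
    simp only [coeff_C_mul, coeff_X_pow]
    by_cases hm0 : ∃ l, Finsupp.single l (p ^ r) = m
    · obtain ⟨l, rfl⟩ := hm0
      rw [Finset.sum_eq_single l]
      · rw [if_pos rfl, mul_one]
        rfl
      · intro l' _ hl'
        rw [if_neg, mul_zero]
        intro h2
        exact hl' (single_inj hq1 h2)
      · intro h2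
        exact absurd (Finset.mem_univ l) h2
    · push Not at hm0
      rw [Finset.sum_eq_zero, Ideal.Quotient.eq_zero_iff_mem, ← v_lt_one_iff, hco, map_mul, hvb,
        one_mul]
      · exact h.insep i m fun j hj => hm0 j hj.symm
      · intro l _
        rw [if_neg (hm0 l), mul_zero]
  obtain ⟨hgood, hpow⟩ := hST N hN r hr Gi hGhom γ hdet hrd
  refine ⟨b, hb0, ?_, hpow⟩
  have h1 : (fun i => C (b : K) * G i) = fun j => map (algebraMap (𝓞 K) K) (Gi j) := by
    funext i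
    rw [hGi]
  rw [h1]
  exact hgood

end Uniform

variable {K : Type} [Field K] [NumberField K]

/-- the endomorphisms of degree `p ^ r`, `1 ≤ r ≤ R`, of projective space over `K` which have good,
purely inseparable reduction at `v` in some coordinates over `K` -/
def ClassN (v : FinitePlace K) (p R : ℕ) {N : ℕ}
    (F : Fin (N + 1) → MvPolynomial (Fin (N + 1)) K) : Prop :=
  ∃ r : ℕ, 1 ≤ r ∧ r ≤ R ∧ (∀ i, (F i).IsHomogeneous (p ^ r)) ∧
    ∃ (A : Matrix (Fin (N + 1)) (Fin (N + 1)) K) (G : Fin (N + 1) → MvPolynomial (Fin (N + 1)) K),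
      A.det ≠ 0 ∧ (∀ i, (G i).IsHomogeneous (p ^ r)) ∧ Conj A F G ∧ InsepN v (p ^ r) G

/-- the coordinates of the periodic points of these maps -/
def PerGenN (v : FinitePlace K) (p R : ℕ) (E : Type) [Field E] [Algebra K E] : Set E :=
  {t | ∃ (N : ℕ) (F : Fin (N + 1) → MvPolynomial (Fin (N + 1)) K) (y : Fin (N + 1) → E),
    N ≤ R ∧ ClassN v p R F ∧ (∃ j : ℕ, 1 ≤ j ∧ ∃ c : E, (act F)^[j] y = c • y) ∧
    ∃ i k, y k ≠ 0 ∧ t = y i / y k}

variable {E : Type} [Field E] [NumberField E] [Algebra K E]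

/-- the data attached to a periodic point -/
lemma pt_data (v : FinitePlace K) {p S T R : ℕ}
    (hST : ∀ N : ℕ, N ≤ R → ∀ r : ℕ, 1 ≤ r →
      ∀ G : Fin (N + 1) → MvPolynomial (Fin (N + 1)) K,
      (∀ i, (G i).IsHomogeneous (p ^ r)) → InsepN v (p ^ r) G →
      ∃ b : 𝓞 K, b ≠ 0 ∧ GoodN (mi v) (Fit (fun i => C (b : K) * G i) S) ((p ^ r) ^ S) ∧
        (p ^ r) ^ S = (mi v).absNorm ^ (r * T)) {t : E} (ht : t ∈ PerGenN v p R E) :
    ∃ (N r : ℕ) (Φ : Fin (N + 1) → MvPolynomial (Fin (N + 1)) K) (z : Fin (N + 1) → E),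
      1 ≤ r ∧ r ≤ R ∧ (p ^ r) ^ S = (mi v).absNorm ^ (r * T) ∧
      GoodN (mi v) Φ ((p ^ r) ^ S) ∧ z ≠ 0 ∧
      (∃ j, 1 ≤ j ∧ ∃ c : E, (act Φ)^[j] z = c • z) ∧
      ∀ g : Gal(E/K), (∃ e : E, e ≠ 0 ∧ (fun i => g (z i)) = e • z) → g t = t := by
  obtain ⟨N, F, y, hN, ⟨r, hr, hrR, hF, A, G, hA, hGhom, hconj, hred⟩, ⟨j, hj, c, hper⟩, i, k,
    hk, rfl⟩ := ht
  obtain ⟨b, hb, hgood, hpow⟩ := hST N hN r hr G hGhom hred
  set AM := A.map (algebraMap K E) with hAM
  have hAM0 : AM.det ≠ 0 := by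
    have h1 : AM.det = algebraMap K E A.det := by
      rw [RingHom.map_det]
      rfl
    rw [h1, Ne, FaithfulSMul.algebraMap_eq_zero_iff]
    exact hA
  have hy0 : y ≠ 0 := fun h => hk (congrFun h k)
  refine ⟨N, r, Fit (fun i => C (b : K) * G i) S, lin AM y, hr, hrR, hpow, hgood,
    lin_ne_zero hAM0 hy0, ⟨j, hj, ?_⟩, ?_⟩
  · obtain ⟨d, hd⟩ := per_mul hF hper S
    obtain ⟨c₁, -, hc₁⟩ := act_C_mul_iter (b := b) hb hGhom (lin AM y) (S * j)
    refine ⟨c₁ * d, ?_⟩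
    rw [act_Fit_iter, hc₁, hAM, hconj.act_iter, Nat.mul_comm S j, hd, lin_smul, smul_smul]
  · rintro g ⟨e, he, hge⟩
    have h1 : lin AM (fun i => g (y i)) = lin AM (e • y) := by
      rw [lin_smul, ← hge]
      funext l
      simp only [lin, map_sum, map_mul]
      refine Finset.sum_congr rfl fun m _ => ?_
      rw [hAM, Matrix.map_apply, AlgEquiv.commutes]
    have h2 := lin_inj hAM0 h1
    have h3 : ∀ l, g (y l) = e * y l := fun l => congrFun h2 l
    rw [map_div₀, h3, h3, mul_div_mul_left _ _ he]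

/-- **Main lemma.** -/
theorem central (v : FinitePlace K) {p : ℕ} (hp : p.Prime) (hv : v (p : K) < 1) (R : ℕ) :
    ∃ a : ℕ, 1 ≤ a ∧ ∀ (E : Type) [Field E] [NumberField E] [Algebra K E] [IsGalois K E],
      (Algebra.adjoin K (AbSet K E ∪ PerGenN v p R E) = ⊤ →
        ∀ w ∈ TP E (mi v), ∀ σ : Gal(E/K), σ • mi w = mi w →
          ∀ τ : Gal(E/K), τ * σ ^ a * τ⁻¹ = σ ^ a) ∧
      (Algebra.adjoin K (PerGenN v p R E) = ⊤ →
        ∀ w ∈ TP E (mi v), (mi w).inertia Gal(E/K) = ⊥) := by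
  classical
  obtain ⟨S, T, hS, hT, hST⟩ := uniform_model v hp hv R
  refine ⟨R.factorial * T, Nat.mul_pos (Nat.factorial_pos _) hT, ?_⟩
  intro E _ _ _ _
  have hP0 := mi_ne_bot v
  -- automorphisms fixing generators
  have hone : ∀ S : Set E, Algebra.adjoin K S = ⊤ → ∀ g : Gal(E/K), (∀ t ∈ S, g t = t) →
      g = 1 := by
    intro S hgen g hg
    have h1 : (g : E →ₐ[K] E) = AlgHom.id K E := AlgHom.ext_of_adjoin_eq_top hgen hg
    ext x
    exact congrArg (fun φ : E →ₐ[K] E => φ x) h1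
  constructor
  · intro hgen w hw σ hσ
    obtain ⟨i, hi, hσi⟩ := dec_frob hP0 hw hσ
    obtain ⟨hst, hpow⟩ := dec_pow hσ hσi (R.factorial * T)
    set g := σ ^ (R.factorial * T) with hg
    intro τ
    have h0 : g⁻¹ * (τ * g * τ⁻¹) = 1 := by
      apply hone _ hgen
      rintro t (ht | ht)
      · change g⁻¹ (τ (g (τ⁻¹ t))) = t
        rw [ht g τ⁻¹]
        change g⁻¹ ((τ * τ⁻¹) (g t)) = t
        rw [mul_inv_cancel]
        change (g⁻¹ * g) t = t
        rw [inv_mul_cancel]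
        rfl
      obtain ⟨N, r, Φ, z, hr, hrR, hq, hgood, hz, ⟨j, hj, c, hper⟩, hfix⟩ := pt_data v hST ht
      apply hfix
      obtain ⟨m, hm⟩ : r ∣ R.factorial := Nat.dvd_factorial (by omega) hrR
      have hexp : ((p ^ r) ^ S) ^ (i * m) = ((mi v).absNorm ^ i) ^ (R.factorial * T) := by
        rw [hq, ← pow_mul, ← pow_mul, hm]
        congr 1
        ring
      have hfr : FrobAt w g (((p ^ r) ^ S) ^ (i * m)) := ⟨hst, by rw [hexp]; exact hpow⟩
      -- the action on `z` and on `τ⁻¹ z`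
      obtain ⟨e₁, he₁, h1⟩ := act_frob hP0 hgood hw hfr hz hj hper
      have hz' : (fun i => τ⁻¹ (z i)) ≠ 0 := by
        intro h0
        apply hz
        funext i
        have := congrFun h0 i
        simpa using this
      have hper' : (act Φ)^[j] (fun i => τ⁻¹ (z i)) = τ⁻¹ c • fun i => τ⁻¹ (z i) := by
        rw [act_gal_iter, hper]
        funext i
        simp only [Pi.smul_apply, smul_eq_mul, map_mul]
      obtain ⟨e₂, he₂, h2⟩ := act_frob hP0 hgood hw hfr hz' hj hper'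
      rw [act_gal_iter] at h2
      -- `g z = e₁ Φ^m z`, `g τ⁻¹ z = e₂ τ⁻¹ Φ^m z`
      refine ⟨g⁻¹ (τ e₂ * e₁⁻¹), ?_, ?_⟩
      · rw [Ne, map_eq_zero_iff _ (AlgEquiv.injective g⁻¹)]
        exact mul_ne_zero ((map_ne_zero τ).mpr he₂) (inv_ne_zero he₁)
      · funext l
        have h3 : g (z l) = e₁ * (act Φ)^[i * m] z l := congrFun h1 l
        have h4 : g (τ⁻¹ (z l)) = e₂ * τ⁻¹ ((act Φ)^[i * m] z l) := congrFun h2 l
        change g⁻¹ (τ (g (τ⁻¹ (z l)))) = g⁻¹ (τ e₂ * e₁⁻¹) * z l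
        have h5 : z l = g⁻¹ (g (z l)) := by
          change z l = (g⁻¹ * g) (z l)
          rw [inv_mul_cancel]
          rfl
        conv_rhs => rw [h5, ← map_mul, h3]
        rw [h4, map_mul]
        congr 1
        have h6 : τ (τ⁻¹ ((act Φ)^[i * m] z l)) = (act Φ)^[i * m] z l := by
          change (τ * τ⁻¹) _ = _
          rw [mul_inv_cancel]
          rfl
        rw [h6]
        field_simp
    rw [inv_mul_eq_one] at h0
    exact h0.symm
  · intro hgen w hw
    rw [Subgroup.eq_bot_iff_forall]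
    intro g hg
    apply hone _ hgen
    intro t ht
    obtain ⟨N, r, Φ, z, hr, hrR, hq, hgood, hz, ⟨j, hj, c, hper⟩, hfix⟩ := pt_data v hST ht
    apply hfix
    have hfr : FrobAt w g (((p ^ r) ^ S) ^ 0) := by
      rw [pow_zero]
      have h1 : ∀ x : 𝓞 E, g • x - x ^ 1 ∈ mi w := by
        intro x
        rw [pow_one]
        exact (AddSubgroup.mem_inertia.mp hg) x
      have h0 : mi w ≠ ⊥ := mi_ne_bot w
      exact ⟨smul_eq_of_congr one_ne_zero inferInstance h0 h1, h1⟩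
    obtain ⟨e, he, h1⟩ := act_frob hP0 hgood hw hfr hz hj hper
    exact ⟨e, he, h1⟩

end

end Pool.Agent.R976.MP.Proj
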