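import Mathlib
import Pool.Agent.R976.MP.ProjC

/-!
# Canonical heights over fields generated by periodic points of projective spaces
-/

set_option autoImplicit false
set_option linter.unusedSectionVars false

namespace Pool.Agent.R976.MP.Proj

open NumberField Module MvPolynomial
open Filter (Tendsto atTop)
open scoped Topology
open Pool.Agent.W238.Leh Pool.Agent.H627.LP
open Pool.Agent.H420R3 (mi nv TP ew exists_frac v_lt_one_iff mi_ne_bot CP)
open Pool.Agent.Y740.RL (FewConj RamLe card_inertia_base)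
open scoped Pointwise

noncomputable section

/-- places above ideals -/
lemma exists_place {K E : Type} [Field K] [NumberField K] [Field E] [NumberField E] [Algebra K E]
    {P : Ideal (𝓞 K)} [hP : P.IsMaximal] (hP0 : P ≠ ⊥) (𝔓 : Ideal (𝓞 E)) (h𝔓 : 𝔓.IsMaximal)
    (hlo : 𝔓.LiesOver P) : ∃ w : FinitePlace E, w ∈ TP E P ∧ mi w = 𝔓 := by
  have hbot : 𝔓 ≠ ⊥ := Ideal.ne_bot_of_liesOver_of_ne_bot hP0 𝔓
  let Q : IsDedekindDomain.HeightOneSpectrum (𝓞 E) := ⟨𝔓, h𝔓.isPrime, hbot⟩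
  let w : FinitePlace E := FinitePlace.mk Q
  have hmi : mi w = 𝔓 := by
    have h1 : w.maximalIdeal = Q := FinitePlace.maximalIdeal_mk Q
    change w.maximalIdeal.asIdeal = 𝔓
    rw [h1]
  refine ⟨w, ?_, hmi⟩
  rw [H420R3.mem_TP hP0, hmi]
  exact ⟨h𝔓.isPrime, hlo⟩

/-- **Main lemma**, reformulated -/
theorem central' {K : Type} [Field K] [NumberField K] (v : FinitePlace K) {p : ℕ} (hp : p.Prime)
    (hv : v (p : K) < 1) (R : ℕ) :
    ∃ a : ℕ, 1 ≤ a ∧ ∀ (E : Type) [Field E] [NumberField E] [Algebra K E] [IsGalois K E],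
      (Algebra.adjoin K (AbSet K E ∪ PerGenN v p R E) = ⊤ → FewConj (mi v) E 1 a) ∧
      (Algebra.adjoin K (PerGenN v p R E) = ⊤ → RamLe (mi v) E 1) := by
  obtain ⟨a, ha, h⟩ := central v hp hv R
  refine ⟨a, ha, ?_⟩
  intro E _ _ _ _
  obtain ⟨h1, h2⟩ := h E
  have hP0 := mi_ne_bot v
  constructor
  · intro hgen 𝔓 h𝔓 hlo σ hσ
    obtain ⟨w, hw, rfl⟩ := exists_place hP0 𝔓 h𝔓 hlo
    have h3 : (Set.range fun τ : Gal(E/K) => τ * σ ^ a * τ⁻¹) ⊆ {σ ^ a} := by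
      rintro _ ⟨τ, rfl⟩
      exact h1 hgen w hw σ hσ τ
    exact (Set.ncard_le_ncard h3 (Set.finite_singleton _)).trans (by simp)
  · intro hgen 𝔓 h𝔓 hlo
    obtain ⟨w, hw, rfl⟩ := exists_place hP0 𝔓 h𝔓 hlo
    rw [← card_inertia_base (K := K) (mi w), h2 hgen w hw]
    simp

variable {k K : Type} [Field k] [NumberField k] [Field K] [NumberField K] [Algebra k K] {N : ℕ}

/-- the bound when powers of Frobenius are central -/
theorem proj_main {p r : ℕ} (hp : p.Prime) (hr : 1 ≤ r)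
    (F : Fin (N + 1) → MvPolynomial (Fin (N + 1)) k)
    (A : Matrix (Fin (N + 1)) (Fin (N + 1)) K) (hA : A.det ≠ 0)
    (G : Fin (N + 1) → MvPolynomial (Fin (N + 1)) K) (hG : ∀ i, (G i).IsHomogeneous (p ^ r))
    (hconj : Conj A F G) (v : FinitePlace K) (hv : v (p : K) < 1) (hred : InsepN v (p ^ r) G)
    {a : ℕ} (ha : 1 ≤ a) :
    ∃ C : ℝ, 0 < C ∧ ∀ (L : Type) [Field L] [NumberField L] [Algebra k L] [IsGalois k L],
      FewConj ((mi v).under (𝓞 k)) L 1 a →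
      ∀ x : Fin (N + 1) → L, x ≠ 0 → Wnd F x →
      ∃ h : ℝ, Tendsto (fun n : ℕ => Height.logHeight ((act F)^[n] x) /
          ((finrank ℚ L : ℝ) * ((p ^ r : ℕ) : ℝ) ^ n)) atTop (𝓝 h) ∧
        ∀ e : ℕ, RamLe ((mi v).under (𝓞 k)) L e → 1 / (C * e) ≤ h := by
  classical
  obtain ⟨C, hC, hmain⟩ := main hp hr F A hA G hG hconj v hv hred ha 1
  refine ⟨C, hC, ?_⟩
  intro L _ _ _ _ hfew x hx hw
  have hP0 := H420R3.mi_ne_bot v
  have hgen := gen_CP k K L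
  have hgal : IsGalois K (CP k K L) := isGalois_comp hgen
  obtain ⟨h, hlim, hbd⟩ := hmain L (CP k K L) x hx hw
  refine ⟨h, hlim, ?_⟩
  -- primes of `L` below places of the compositum
  have hbelow : ∀ w ∈ TP (CP k K L) (mi v),
      ((mi w).comap (algebraMap (𝓞 L) (𝓞 (CP k K L)))).IsMaximal ∧
      ((mi w).comap (algebraMap (𝓞 L) (𝓞 (CP k K L)))).LiesOver ((mi v).under (𝓞 k)) := by
    intro w hw'
    refine ⟨Ideal.isMaximal_comap_of_isIntegral_of_isMaximal (mi w), ⟨?_⟩⟩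
    have hlo := H420R3.liesOver_of_mem hP0 hw'
    have h4 : mi v = (mi w).comap (algebraMap (𝓞 K) (𝓞 (CP k K L))) := hlo.over
    change (mi v).comap (algebraMap (𝓞 k) (𝓞 K)) =
      ((mi w).comap (algebraMap (𝓞 L) (𝓞 (CP k K L)))).comap (algebraMap (𝓞 k) (𝓞 L))
    rw [Ideal.comap_comap, h4, Ideal.comap_comap]
    congr 1
    refine RingHom.ext fun a => ?_
    apply RingOfIntegers.coe_injective
    change algebraMap K (CP k K L) (algebraMap k K (a : k)) =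
      algebraMap L (CP k K L) (algebraMap k L (a : k))
    exact ((IsScalarTower.algebraMap_apply k L (CP k K L) (a : k)).symm.trans
      (IsScalarTower.algebraMap_apply k K (CP k K L) (a : k))).symm
  -- the Frobenius element
  obtain ⟨w₀, hw₀⟩ := H420R3.TP_nonempty (M := CP k K L) (P := mi v) hP0
  obtain ⟨τ₀, h1, h2⟩ := H420R3.exists_frob (K := K) hP0 hw₀ 1
  rw [pow_one] at h2
  have h3 : FrobAt w₀ τ₀ (mi v).absNorm := ⟨h1, h2⟩
  set 𝔓 : Ideal (𝓞 L) := (mi w₀).comap (algebraMap (𝓞 L) (𝓞 (CP k K L))) with h𝔓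
  have hstab : (resH τ₀ : Gal(L/k)) • 𝔓 = 𝔓 := by
    ext y
    rw [Ideal.mem_pointwise_smul_iff_inv_smul_mem, ← resH_inv]
    change algebraMap (𝓞 L) (𝓞 (CP k K L)) ((resH τ₀⁻¹ : Gal(L/k)) • y) ∈ mi w₀ ↔
      algebraMap (𝓞 L) (𝓞 (CP k K L)) y ∈ mi w₀
    have h4 : algebraMap (𝓞 L) (𝓞 (CP k K L)) ((resH τ₀⁻¹ : Gal(L/k)) • y) =
        τ₀⁻¹ • algebraMap (𝓞 L) (𝓞 (CP k K L)) y := by
      apply RingOfIntegers.coe_injective
      exact resH_commutes (k := k) τ₀⁻¹ (y : L)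
    rw [h4, ← Ideal.mem_pointwise_smul_iff_inv_smul_mem, h1]
  obtain ⟨hmax, hlo⟩ := hbelow w₀ hw₀
  have hcen : ∀ g : Gal(L/k), g * (resH τ₀ : Gal(L/k)) ^ a * g⁻¹ = (resH τ₀ : Gal(L/k)) ^ a := by
    intro g
    have h4 := hfew 𝔓 hmax hlo (resH τ₀) hstab
    rw [Set.ncard_le_one (Set.toFinite _)] at h4
    exact h4 _ ⟨g, rfl⟩ _ ⟨1, by simp⟩
  have hcomm : ∀ g : Gal(CP k K L/K), τ₀ ^ a * g = g * τ₀ ^ a := by
    intro g
    apply resH_inj hgen
    rw [resH_mul, resH_mul, resH_pow]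
    have h4 := hcen (resH g)
    rw [mul_inv_eq_iff_eq_mul] at h4
    exact h4.symm
  have hfrob : ∀ w ∈ TP (CP k K L) (mi v), FrobAt w (τ₀ ^ a) ((mi v).absNorm ^ a) := by
    intro w hw'
    have hlo := H420R3.liesOver_of_mem hP0 hw'
    have hlo₀ := H420R3.liesOver_of_mem hP0 hw₀
    obtain ⟨g, hg⟩ := Ideal.exists_smul_eq_of_isGaloisGroup (mi v) (mi w₀) (mi w)
      Gal(CP k K L/K)
    exact (h3.pow a).conj hg (hcomm g)
  obtain ⟨-, h5⟩ := hbd (τ₀ ^ a) (TP (CP k K L) (mi v)) subset_rfl hfrob (by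
    rw [one_mul, sum_ef hP0])
  intro e he
  apply h5 e
  intro w hw'
  obtain ⟨hmax', hlo'⟩ := hbelow w hw'
  exact (ram_comp hgen w).trans (he _ hmax' hlo')

end

end Pool.Agent.R976.MP.Proj
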