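import Mathlib
import Pool.Agent.R976.MP.ProjD

/-!
# Fields generated by roots of unity of `p`-power order over unramified extensions
-/

set_option autoImplicit false
set_option linter.unusedSectionVars false

namespace Pool.Agent.R976.MP.Cyc

open NumberField Module
open Pool.Agent.W238.Leh (HasGS nmf le_nmf nmf_pos sum_mult)
open Pool.Agent.H627.LP (pair_ineq v_le_inv_nv)
open Pool.Agent.H420R3 (mi nv nv_pos log_nv_pos TP ew ew_pos sum_ew v_le_of_mem_P exists_frac
  v_lt_one_iff v_le_one v_le_iff v_eq_one_of_notMem v_sum_le v_sub_le v_nonneg mi_ne_bot mem_TP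
  liesOver_of_mem)
open Pool.Agent.Y740.RL (FewConj RamLe)
open scoped Pointwise

noncomputable section

section Root

variable {M : Type} [Field M] [NumberField M]

lemma v_root (w : FinitePlace M) {ζ : M} {m : ℕ} (hm : 0 < m) (h : ζ ^ m = 1) : w ζ = 1 := by
  have h1 : w ζ ^ m = 1 := by rw [← map_pow, h, map_one]
  exact (pow_eq_one_iff_of_nonneg (v_nonneg w _) hm.ne').mp h1

lemma v_pow_sub_one_le (w : FinitePlace M) {ζ : M} {m : ℕ} (hm : 0 < m) (h : ζ ^ m = 1) (j : ℕ) :
    w (ζ ^ j - 1) ≤ w (ζ - 1) := by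
  rw [← geom_sum_mul, map_mul]
  have h1 : w (∑ i ∈ Finset.range j, ζ ^ i) ≤ 1 := by
    apply v_sum_le w _ _ zero_le_one
    intro i _
    rw [map_pow, v_root w hm h, one_pow]
  have h2 : 0 ≤ w (ζ - 1) := v_nonneg w _
  nlinarith

/-- the absolute values of `μ - 1`, `μ` a primitive root, are equal -/
lemma v_prim_eq (w : FinitePlace M) {ζ μ : M} {m : ℕ} (hm : 0 < m) (h : IsPrimitiveRoot ζ m)
    (h' : IsPrimitiveRoot μ m) : w (μ - 1) = w (ζ - 1) := by
  have : NeZero m := ⟨hm.ne'⟩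
  apply le_antisymm
  · obtain ⟨i, -, hi⟩ := h.eq_pow_of_pow_eq_one h'.pow_eq_one
    rw [← hi]
    exact v_pow_sub_one_le w hm h.pow_eq_one i
  · obtain ⟨i, -, hi⟩ := h'.eq_pow_of_pow_eq_one h.pow_eq_one
    rw [← hi]
    exact v_pow_sub_one_le w hm h'.pow_eq_one i

/-- `p` is, up to a unit, a power of `ζ - 1` -/
lemma v_prime (w : FinitePlace M) {p k : ℕ} (hp : p.Prime) {ζ : M}
    (h : IsPrimitiveRoot ζ (p ^ (k + 1))) :
    w (p : M) = w (ζ - 1) ^ (p ^ (k + 1)).totient := by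
  classical
  have : Fact p.Prime := ⟨hp⟩
  have hm : 0 < p ^ (k + 1) := pow_pos hp.pos _
  have h1 : Polynomial.eval (1 : M) (Polynomial.cyclotomic (p ^ (k + 1)) M) = p :=
    Polynomial.eval_one_cyclotomic_prime_pow k
  rw [Polynomial.cyclotomic_eq_prod_X_sub_primitiveRoots h, Polynomial.eval_prod] at h1
  rw [← h1, map_prod]
  have h2 : ∀ μ ∈ primitiveRoots (p ^ (k + 1)) M,
      w (Polynomial.eval 1 (Polynomial.X - Polynomial.C μ)) = w (ζ - 1) := by
    intro μ hμ
    rw [mem_primitiveRoots hm] at hμ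
    rw [Polynomial.eval_sub, Polynomial.eval_X, Polynomial.eval_C, ← v_prim_eq w hm h hμ,
      ← H420R3.v_neg w, neg_sub]
  rw [Finset.prod_congr rfl h2, Finset.prod_const, h.card_primitiveRoots]

end Root

section Exact

variable {M : Type} [Field M] [NumberField M]

/-- the norm of a prime ideal containing `p` is at least `p` -/
lemma le_absNorm {K : Type} [Field K] [NumberField K] {P : Ideal (𝓞 K)} [hP : P.IsMaximal]
    (hP0 : P ≠ ⊥) {p : ℕ} (hp : p.Prime) (hpP : (p : 𝓞 K) ∈ P) : p ≤ P.absNorm := by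
  have h1 : P.absNorm ∣ p ^ finrank ℤ (𝓞 K) := by
    have h2 := Ideal.absNorm_dvd_norm_of_mem hpP
    have h3 : Algebra.norm ℤ (p : 𝓞 K) = (p : ℤ) ^ finrank ℤ (𝓞 K) := by
      have := Algebra.norm_algebraMap (S := 𝓞 K) (p : ℤ)
      simpa using this
    rw [h3] at h2
    exact_mod_cast h2
  obtain ⟨i, -, hi⟩ := (Nat.dvd_prime_pow hp).mp h1
  have h2 : P.absNorm ≠ 1 := by
    rw [Ne, Ideal.absNorm_eq_one_iff]
    exact hP.ne_top
  have h3 : i ≠ 0 := by
    rintro rfl
    exact h2 (by rw [hi, pow_zero])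
  rw [hi]
  exact Nat.le_self_pow h3 p

/-- over `ℚ` the absolute value of `p` is determined by the ramification index -/
lemma v_exact (v : FinitePlace ℚ) {p : ℕ} (hp : p.Prime) (hv : v (p : ℚ) < 1)
    {w : FinitePlace M} (hw : w ∈ TP M (mi v)) :
    Real.log (w (p : M)) = -ew ℚ w := by
  classical
  have hP0 := mi_ne_bot v
  have hpP : (p : 𝓞 ℚ) ∈ mi v := by
    rw [← v_lt_one_iff]
    simpa using hv
  have hp0 : (p : M) ≠ 0 := by exact_mod_cast hp.ne_zero
  have hle : ∀ u ∈ TP M (mi v), Real.log (u (p : M)) ≤ -ew ℚ u := by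
    intro u hu
    have h1 := v_le_of_mem_P hP0 hu hpP
    rw [map_natCast] at h1
    have h2 := Real.log_le_log (FinitePlace.pos_iff.mpr hp0) h1
    rwa [Real.log_exp] at h2
  -- the product formula
  obtain ⟨hfin, hsum⟩ := HasGS.prod hp0
  have hinf : ∑ u : InfinitePlace M, (u.mult : ℝ) * Real.log (u (p : M)) =
      (finrank ℚ M : ℝ) * Real.log p := by
    rw [← sum_mult, Finset.sum_mul]
    refine Finset.sum_congr rfl fun u _ => ?_
    have h1 : u (p : M) = p := by
      simp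
    rw [h1]
  rw [hinf] at hsum
  have hnp : ∀ u : FinitePlace M, Real.log (u (p : M)) ≤ 0 := by
    intro u
    apply Real.log_nonpos (v_nonneg u _)
    have := v_le_one u (p : 𝓞 M)
    simpa using this
  have h3 : ∑ᶠ u : FinitePlace M, Real.log (u (p : M)) ≤ ∑ u ∈ TP M (mi v),
      Real.log (u (p : M)) := by
    have h4 : ∑ᶠ u : FinitePlace M, Real.log (u (p : M)) =
        ∑ u ∈ hfin.toFinset ∪ TP M (mi v), Real.log (u (p : M)) := by
      apply finsum_eq_sum_of_support_subset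
      intro u hu
      rw [Finset.coe_union]
      left
      simpa using hu
    rw [h4]
    have h5 : ∑ u ∈ TP M (mi v), -Real.log (u (p : M)) ≤
        ∑ u ∈ hfin.toFinset ∪ TP M (mi v), -Real.log (u (p : M)) := by
      refine Finset.sum_le_sum_of_subset_of_nonneg Finset.subset_union_right ?_
      intro u _ _
      have := hnp u
      linarith
    rw [Finset.sum_neg_distrib, Finset.sum_neg_distrib] at h5
    linarith
  have h5 := sum_ew (K := ℚ) (M := M) hP0
  have h6 : (finrank ℚ M : ℝ) * Real.log p ≤ ∑ u ∈ TP M (mi v), ew ℚ u := by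
    rw [h5]
    have h7 : (p : ℝ) ≤ (mi v).absNorm := by exact_mod_cast le_absNorm hP0 hp hpP
    have h8 : (0 : ℝ) < p := by exact_mod_cast hp.pos
    have h9 := Real.log_le_log h8 h7
    gcongr
  have h10 : ∑ u ∈ TP M (mi v), (-ew ℚ u - Real.log (u (p : M))) ≤ 0 := by
    rw [Finset.sum_sub_distrib, Finset.sum_neg_distrib]
    linarith
  have h11 := (Finset.sum_eq_zero_iff_of_nonneg (fun u hu => by
    have := hle u hu
    linarith)).mp (le_antisymm h10 (Finset.sum_nonneg fun u hu => by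
    have := hle u hu
    linarith)) w hw
  linarith

end Exact

section Local

variable {K B M : Type} [Field K] [NumberField K] [Field B] [NumberField B] [Field M]
  [NumberField M] [Algebra K B] [Algebra B M] [Algebra K M] [IsScalarTower K B M] [IsGalois B M]

variable (B) in
/-- the place is totally ramified with trivial residue extension and uniformizer `π` -/
structure TotRam (w : FinitePlace M) (π : M) : Prop where
  inert : ∀ σ : Gal(M/B), σ ∈ (mi w).inertia Gal(M/B)
  res : ∀ x : 𝓞 M, ∃ b : 𝓞 B, x - algebraMap (𝓞 B) (𝓞 M) b ∈ mi w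
  unif : Real.log (w π) = -Real.log (nv w)
  ne : π ≠ 0

lemma totRam {P : Ideal (𝓞 K)} [hP : P.IsMaximal] (hP0 : P ≠ ⊥) (hram : RamLe P B 1) {p k : ℕ}
    (hp : p.Prime) (hpP : (p : 𝓞 K) ∈ P) {ζ : M} (hζ : IsPrimitiveRoot ζ (p ^ (k + 1)))
    (hdeg : finrank B M ≤ (p ^ (k + 1)).totient) {w : FinitePlace M} (hw : w ∈ TP M P)
    (hex : Real.log (w (p : M)) = -ew K w) :
    TotRam B w (ζ - 1) ∧ finrank B M = (p ^ (k + 1)).totient := by
  classical
  have hlo := liesOver_of_mem hP0 hw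
  set n := (p ^ (k + 1)).totient with hn
  set 𝔭 : Ideal (𝓞 B) := (mi w).under (𝓞 B) with h𝔭
  have h𝔭m : 𝔭.IsMaximal := Ideal.isMaximal_comap_of_isIntegral_of_isMaximal (mi w)
  have hlo1 : (mi w).LiesOver 𝔭 := ⟨rfl⟩
  have hlo2 : 𝔭.LiesOver P := Ideal.LiesOver.tower_bot (mi w) 𝔭 P
  have htow : (mi w).ramificationIdx (𝓞 K) =
      𝔭.ramificationIdx (𝓞 K) * (mi w).ramificationIdx (𝓞 B) :=
    Ideal.ramificationIdx_tower 𝔭 (mi w)
  have h1 : 𝔭.ramificationIdx (𝓞 K) ≤ 1 := hram 𝔭 h𝔭m hlo2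
  have hp0 : (p : M) ≠ 0 := by exact_mod_cast hp.ne_zero
  have hprime := v_prime w hp hζ
  rw [← hn] at hprime
  have hn0 : 0 < n := Nat.totient_pos.mpr (pow_pos hp.pos _)
  have hπ0 : ζ - 1 ≠ 0 := by
    intro h0
    rw [h0, map_zero, zero_pow hn0.ne', map_eq_zero] at hprime
    exact hp0 hprime
  have hlog : Real.log (w (p : M)) = n * Real.log (w (ζ - 1)) := by
    rw [hprime, Real.log_pow]
  have hlt : w (ζ - 1) < 1 := by
    by_contra hcon
    push Not at hcon
    have h2 : 0 ≤ Real.log (w (ζ - 1)) := Real.log_nonneg hcon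
    have h3 := ew_pos (K := K) w
    have h4 : (0 : ℝ) ≤ n * Real.log (w (ζ - 1)) := by positivity
    linarith
  have hle : Real.log (w (ζ - 1)) ≤ -Real.log (nv w) := by
    have h2 := v_le_inv_nv hlt
    have h3 := Real.log_le_log (FinitePlace.pos_iff.mpr hπ0) h2
    rwa [Real.log_exp] at h3
  have hnv := log_nv_pos w
  have hnR : (0 : ℝ) < n := by exact_mod_cast hn0
  have hew : ew K w = ((mi w).ramificationIdx (𝓞 K) : ℝ) * Real.log (nv w) := rfl
  have hen : n ≤ (mi w).ramificationIdx (𝓞 K) := by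
    have h2 : (n : ℝ) * Real.log (nv w) ≤
        ((mi w).ramificationIdx (𝓞 K) : ℝ) * Real.log (nv w) := by
      rw [← hew]
      have h3 : (n : ℝ) * Real.log (w (ζ - 1)) ≤ n * (-Real.log (nv w)) :=
        mul_le_mul_of_nonneg_left hle hnR.le
      linarith
    have h3 := le_of_mul_le_mul_right h2 hnv
    exact_mod_cast h3
  have hcount := Ideal.ncard_primesOver_mul_ramificationIdxIn_mul_inertiaDegIn 𝔭 (𝓞 M) Gal(M/B)
  rw [Ideal.ramificationIdxIn_eq_ramificationIdx 𝔭 (mi w) Gal(M/B),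
    Ideal.inertiaDegIn_eq_inertiaDeg 𝔭 (mi w) Gal(M/B), IsGalois.card_aut_eq_finrank] at hcount
  set e := (mi w).ramificationIdx (𝓞 B) with he
  set f := (mi w).inertiaDeg (𝓞 B) with hf
  set g := (𝔭.primesOver (𝓞 M)).ncard with hg
  have hne : n ≤ e := by
    refine hen.trans ?_
    rw [htow]
    calc 𝔭.ramificationIdx (𝓞 K) * e ≤ 1 * e := Nat.mul_le_mul_right _ h1
      _ = e := one_mul e
  have hfr : 0 < finrank B M := finrank_pos
  have hg0 : 0 < g := by
    rcases Nat.eq_zero_or_pos g with h0 | h0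
    · rw [h0, zero_mul] at hcount
      omega
    · exact h0
  have hf0 : 0 < f := by
    rcases Nat.eq_zero_or_pos f with h0 | h0
    · rw [h0, mul_zero, mul_zero] at hcount
      omega
    · exact h0
  have he0 : 0 < e := lt_of_lt_of_le hn0 hne
  have h5 : e ≤ e * f := Nat.le_mul_of_pos_right e hf0
  have h6 : e * f ≤ g * (e * f) := Nat.le_mul_of_pos_left _ hg0
  have hfin : finrank B M = n := by omega
  have hen' : e = n := by omega
  have hf1 : f = 1 := by
    have h7 : e * f ≤ e * 1 := by omega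
    have := Nat.le_of_mul_le_mul_left h7 he0
    omega
  refine ⟨⟨?_, ?_, ?_, hπ0⟩, hfin⟩
  · -- the inertia group is everything
    have h7 : Nat.card ((mi w).inertia Gal(M/B)) = Nat.card Gal(M/B) := by
      rw [Ideal.card_inertia_eq_ramificationIdxIn (G := Gal(M/B)) 𝔭 (mi w),
        Ideal.ramificationIdxIn_eq_ramificationIdx 𝔭 (mi w) Gal(M/B),
        IsGalois.card_aut_eq_finrank, hfin]
      exact hen'
    have h8 : (mi w).inertia Gal(M/B) = ⊤ := Subgroup.eq_top_of_card_eq _ h7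
    intro σ
    rw [h8]
    exact Subgroup.mem_top σ
  · intro x
    have h7 : finrank (𝓞 B ⧸ 𝔭) (𝓞 M ⧸ mi w) = 1 := by
      rw [← Ideal.inertiaDeg_eq_of_isMaximal 𝔭 (mi w)]
      exact hf1
    let : Field (𝓞 B ⧸ 𝔭) := Ideal.Quotient.field 𝔭
    let : Field (𝓞 M ⧸ mi w) := Ideal.Quotient.field (mi w)
    have h8 := (Algebra.finrank_eq_one_iff_bijective_algebraMap.mp h7).2
    obtain ⟨b, hb⟩ := h8 (Ideal.Quotient.mk (mi w) x)
    obtain ⟨b, rfl⟩ := Ideal.Quotient.mk_surjective b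
    refine ⟨b, ?_⟩
    rw [← Ideal.Quotient.eq_zero_iff_mem, map_sub, sub_eq_zero, ← hb]
    rfl
  · have h7 : (mi w).ramificationIdx (𝓞 K) = n := by
      apply le_antisymm _ hen
      rw [htow, hen']
      calc 𝔭.ramificationIdx (𝓞 K) * n ≤ 1 * n := Nat.mul_le_mul_right _ h1
        _ = n := one_mul n
    rw [hlog, hew, h7] at hex
    have h8 : (n : ℝ) * Real.log (w (ζ - 1)) = n * (-Real.log (nv w)) := by linarith
    exact mul_left_cancel₀ hnR.ne' h8

end Local

end

end Pool.Agent.R976.MP.Cyc
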