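import Mathlib
import Pool.Agent.R976.MP.Cyc

/-!
# Fields generated by roots of unity of `p`-power order over unramified extensions, II
-/

set_option autoImplicit false
set_option linter.unusedSectionVars false

namespace Pool.Agent.R976.MP.Cyc

open NumberField Module
open Pool.Agent.W238.Leh (HasGS nmf le_nmf nmf_pos sum_mult)
open Pool.Agent.H627.LP (pair_ineq v_le_inv_nv logHeight_aut)
open Pool.Agent.H420R3 (mi nv nv_pos log_nv_pos TP ew ew_pos sum_ew v_le_of_mem_P exists_frac
  v_lt_one_iff v_le_one v_le_iff v_eq_one_of_notMem v_sum_le v_sub_le v_nonneg mi_ne_bot mem_TP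
  liesOver_of_mem v_smul inertia_smul)
open Pool.Agent.Y740.RL (FewConj RamLe)
open scoped Pointwise

noncomputable section

section Contract

variable {B M : Type} [Field B] [NumberField B] [Field M]
  [NumberField M] [Algebra B M] [IsGalois B M]

lemma TotRam.v_lt {w : FinitePlace M} {π : M} (h : TotRam B w π) : w π < 1 := by
  by_contra hcon
  push Not at hcon
  have h1 := Real.log_nonneg hcon
  have h2 := log_nv_pos w
  have h3 := h.unif
  linarith

lemma TotRam.v_eq {w : FinitePlace M} {π : M} (h : TotRam B w π) :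
    w π = Real.exp (-Real.log (nv w)) := by
  rw [← h.unif, Real.exp_log (FinitePlace.pos_iff.mpr h.ne)]

lemma TotRam.expand {w : FinitePlace M} {π : M} (h : TotRam B w π) {x : M} (hx : w x ≤ 1) :
    ∃ (b : 𝓞 B) (y : M), w y ≤ 1 ∧ x = algebraMap B M b + π * y := by
  obtain ⟨a, s, hs, rfl⟩ := exists_frac w hx
  have hvs : w (s : M) = 1 := by
    apply le_antisymm (v_le_one w s)
    by_contra h1
    push Not at h1
    exact hs ((v_lt_one_iff w s).mp h1)
  have hs0 : (s : M) ≠ 0 := by
    intro h0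
    rw [h0, map_zero] at hvs
    norm_num at hvs
  have hmax : (mi w).IsMaximal := inferInstance
  obtain ⟨c, i, hi, hci⟩ := hmax.exists_inv hs
  obtain ⟨b, hb⟩ := h.res (a * c)
  have h1 : w ((a : M) / s - algebraMap B M b) < 1 := by
    have h2 : (a : M) / s - algebraMap B M b =
        (a : M) * (i : M) / s + ((a * c - algebraMap (𝓞 B) (𝓞 M) b : 𝓞 M) : M) := by
      have h3 : (c : M) * s + i = 1 := by
        have := congrArg (fun z : 𝓞 M => (z : M)) hci
        simpa using this
      have h4 : ((a * c - algebraMap (𝓞 B) (𝓞 M) b : 𝓞 M) : M) =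
          (a : M) * c - algebraMap B M b := by
        have e1 : ((a * c - algebraMap (𝓞 B) (𝓞 M) b : 𝓞 M) : M) =
            algebraMap (𝓞 M) M (a * c - algebraMap (𝓞 B) (𝓞 M) b) := rfl
        rw [e1, map_sub, map_mul]
        rfl
      rw [h4]
      field_simp
      linear_combination (-(a : M)) * h3
    rw [h2]
    refine lt_of_le_of_lt (FinitePlace.add_le w _ _) (max_lt ?_ ?_)
    · rw [map_div₀, map_mul, hvs, div_one]
      have h3 : w (i : M) < 1 := (v_lt_one_iff w i).mpr hi
      have h4 := v_le_one w a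
      have h5 := v_nonneg w (a : M)
      have h6 := v_nonneg w (i : M)
      nlinarith
    · exact (v_lt_one_iff w _).mpr hb
  refine ⟨b, ((a : M) / s - algebraMap B M b) / π, ?_, ?_⟩
  · rw [map_div₀, div_le_one (FinitePlace.pos_iff.mpr h.ne), h.v_eq]
    exact v_le_inv_nv h1
  · have := h.ne
    field_simp
    ring

lemma TotRam.key {w : FinitePlace M} {π : M} (h : TotRam B w π) (σ : Gal(M/B)) {δ : ℝ}
    (hδ : w (σ π - π) ≤ δ) (hδ0 : 0 ≤ δ) (N : ℕ) : ∀ x : M, w x ≤ 1 →
      w (σ x - x) ≤ max δ (w π ^ N) := by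
  have hσ : ∀ y : M, w (σ y) = w y := fun y => v_smul w (inertia_smul w (h.inert σ)) y
  have hπ := h.v_lt.le
  have hπ0 := v_nonneg w π
  induction N with
  | zero =>
    intro x hx
    rw [pow_zero]
    refine le_trans ?_ (le_max_right _ _)
    refine (v_sub_le w _ _).trans (max_le ?_ hx)
    rw [hσ]
    exact hx
  | succ N ih =>
    intro x hx
    obtain ⟨b, y, hy, rfl⟩ := h.expand hx
    have h1 : σ (algebraMap B M b + π * y) - (algebraMap B M b + π * y) =
        (σ π - π) * σ y + π * (σ y - y) := by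
      rw [map_add, map_mul, AlgEquiv.commutes]
      ring
    rw [h1]
    refine (FinitePlace.add_le w _ _).trans (max_le ?_ ?_)
    · rw [map_mul, hσ]
      refine le_trans ?_ (le_max_left _ _)
      have h2 := v_nonneg w (σ π - π)
      have h3 := v_nonneg w y
      nlinarith
    · rw [map_mul]
      have h2 := ih y hy
      rcases le_total δ (w π ^ N) with h3 | h3
      · rw [max_eq_right h3] at h2
        refine le_trans ?_ (le_max_right _ _)
        rw [pow_succ']
        exact mul_le_mul_of_nonneg_left h2 hπ0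
      · rw [max_eq_left h3] at h2
        refine le_trans ?_ (le_max_left _ _)
        have h4 := v_nonneg w (σ y - y)
        nlinarith

/-- automorphisms which move the uniformizer only a little move all integral elements only a
little -/
lemma TotRam.close {w : FinitePlace M} {π : M} (h : TotRam B w π) (σ : Gal(M/B)) {δ : ℝ}
    (hδ : w (σ π - π) ≤ δ) (hδ0 : 0 ≤ δ) {x : M} (hx : w x ≤ 1) : w (σ x - x) ≤ δ := by
  by_contra hcon
  push Not at hcon
  have h0 : 0 < w (σ x - x) := lt_of_le_of_lt hδ0 hcon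
  obtain ⟨N, hN⟩ := exists_pow_lt_of_lt_one h0 h.v_lt
  have h1 := h.key σ hδ hδ0 N x hx
  rcases le_max_iff.mp h1 with h2 | h2
  · linarith
  · linarith

/-- the difference of the `p`-th powers -/
lemma TotRam.pow_close {w : FinitePlace M} {π : M} (h : TotRam B w π) (σ : Gal(M/B)) {p : ℕ}
    (hp : p.Prime) {η : M} (hη : IsPrimitiveRoot η p) (hδ : w (σ π - π) ≤ w (η - 1)) {x : M}
    (hx : w x ≤ 1) : w (x ^ p - σ x ^ p) ≤ w (η - 1) ^ p := by
  classical
  have : NeZero p := ⟨hp.ne_zero⟩
  have hσ : ∀ y : M, w (σ y) = w y := fun y => v_smul w (inertia_smul w (h.inert σ)) y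
  rw [hη.pow_sub_pow_eq_prod_sub_mul x (σ x) hp.pos, map_prod]
  have hcard : (Polynomial.nthRootsFinset p (1 : M)).card = p := hη.card_nthRootsFinset
  calc ∏ μ ∈ Polynomial.nthRootsFinset p (1 : M), w (x - μ * σ x) ≤
      ∏ _μ ∈ Polynomial.nthRootsFinset p (1 : M), w (η - 1) := by
        apply Finset.prod_le_prod
        · intro μ _
          exact v_nonneg w _
        · intro μ hμ
          rw [Polynomial.mem_nthRootsFinset hp.pos] at hμ
          obtain ⟨j, -, rfl⟩ := hη.eq_pow_of_pow_eq_one hμ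
          have h1 : x - η ^ j * σ x = -(σ x - x) - (η ^ j - 1) * σ x := by ring
          rw [h1]
          refine (v_sub_le w _ _).trans (max_le ?_ ?_)
          · rw [H420R3.v_neg]
            exact h.close σ hδ (v_nonneg w _) hx
          · rw [map_mul, hσ]
            have h2 := v_pow_sub_one_le w hp.pos hη.pow_eq_one j
            have h3 := v_nonneg w (η ^ j - 1)
            have h4 := v_nonneg w x
            nlinarith
    _ = w (η - 1) ^ p := by rw [Finset.prod_const, hcard]

/-- the same in projective form -/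
lemma TotRam.pair_close {w : FinitePlace M} {π : M} (h : TotRam B w π) (σ : Gal(M/B)) {p : ℕ}
    (hp : p.Prime) {η : M} (hη : IsPrimitiveRoot η p) (hδ : w (σ π - π) ≤ w (η - 1)) (x : M)
    (i j : Fin 2) :
    w ((![x ^ p, 1] : Fin 2 → M) i * (![σ x ^ p, 1] : Fin 2 → M) j -
      (![x ^ p, 1] : Fin 2 → M) j * (![σ x ^ p, 1] : Fin 2 → M) i) ≤
      w (η - 1) ^ p * (nmf (N := 1) w ![x ^ p, 1] * nmf (N := 1) w ![σ x ^ p, 1]) := by
  have hσ : ∀ y : M, w (σ y) = w y := fun y => v_smul w (inertia_smul w (h.inert σ)) y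
  have hη0 : 0 ≤ w (η - 1) ^ p := pow_nonneg (v_nonneg w _) _
  have hn1 : 1 ≤ nmf (N := 1) w ![x ^ p, 1] := by
    have := le_nmf (N := 1) w ![x ^ p, 1] 1
    simpa using this
  have hn2 : 1 ≤ nmf (N := 1) w ![σ x ^ p, 1] := by
    have := le_nmf (N := 1) w ![σ x ^ p, 1] 1
    simpa using this
  have hn3 : w x ^ p ≤ nmf (N := 1) w ![x ^ p, 1] := by
    have := le_nmf (N := 1) w ![x ^ p, 1] 0
    simpa using this
  have hn4 : w x ^ p ≤ nmf (N := 1) w ![σ x ^ p, 1] := by
    have := le_nmf (N := 1) w ![σ x ^ p, 1] 0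
    simp only [Matrix.cons_val_zero, map_pow, hσ] at this
    exact this
  have key : w (x ^ p - σ x ^ p) ≤
      w (η - 1) ^ p * (nmf (N := 1) w ![x ^ p, 1] * nmf (N := 1) w ![σ x ^ p, 1]) := by
    rcases le_or_gt (w x) 1 with hx | hx
    · refine (h.pow_close σ hp hη hδ hx).trans ?_
      have h1 : 1 ≤ nmf (N := 1) w ![x ^ p, 1] * nmf (N := 1) w ![σ x ^ p, 1] := by nlinarith
      nlinarith
    · have hx0 : x ≠ 0 := by
        rintro rfl
        rw [map_zero] at hx
        linarith
      have hσx0 : σ x ≠ 0 := by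
        rw [Ne, map_eq_zero_iff _ (AlgEquiv.injective σ)]
        exact hx0
      have hinv : w x⁻¹ ≤ 1 := by
        rw [map_inv₀]
        exact inv_le_one_of_one_le₀ hx.le
      have h1 := h.pow_close σ hp hη hδ hinv
      have h2 : x ^ p - σ x ^ p = -(x ^ p * σ x ^ p * (x⁻¹ ^ p - σ x⁻¹ ^ p)) := by
        have h5 : x ^ p ≠ 0 := pow_ne_zero _ hx0
        have h6 : σ x ^ p ≠ 0 := pow_ne_zero _ hσx0
        rw [map_inv₀, inv_pow, inv_pow]
        field_simp
        ring
      rw [h2, H420R3.v_neg, map_mul, map_mul, map_pow, map_pow, hσ]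
      have h3 : 0 ≤ w x ^ p := pow_nonneg (v_nonneg w _) _
      have h4 : w x ^ p * w x ^ p ≤
          nmf (N := 1) w ![x ^ p, 1] * nmf (N := 1) w ![σ x ^ p, 1] := by
        apply mul_le_mul hn3 hn4 h3 (by linarith)
      calc w x ^ p * w x ^ p * w (x⁻¹ ^ p - σ x⁻¹ ^ p) ≤
          w x ^ p * w x ^ p * w (η - 1) ^ p := by gcongr
        _ ≤ _ := by
          rw [mul_comm]
          gcongr
  have hz : 0 ≤ w (η - 1) ^ p *
      (nmf (N := 1) w ![x ^ p, 1] * nmf (N := 1) w ![σ x ^ p, 1]) :=
    (v_nonneg w _).trans key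
  fin_cases i <;> fin_cases j
  · simpa using hz
  · simpa using key
  · have h1 : w (σ x ^ p - x ^ p) = w (x ^ p - σ x ^ p) := by
      rw [← H420R3.v_neg, neg_sub]
    simpa [h1] using key
  · simpa using hz

end Contract

end

end Pool.Agent.R976.MP.Cyc
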