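import Mathlib
import Pool.Agent.R976.MP.Cyc2

/-!
# Fields generated by roots of unity of `p`-power order over unramified extensions, III
-/

set_option autoImplicit false
set_option linter.unusedSectionVars false

namespace Pool.Agent.R976.MP.Cyc

open NumberField Module
open Pool.Agent.W238.Leh (HasGS nmf le_nmf nmf_pos sum_mult)
open Pool.Agent.H627.LP (pair_ineq v_le_inv_nv logHeight_aut)
open Pool.Agent.H420R3 (mi nv nv_pos log_nv_pos TP ew ew_pos sum_ew v_le_of_mem_P exists_frac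
  v_lt_one_iff v_le_one v_le_iff v_eq_one_of_notMem v_sum_le v_sub_le v_nonneg mi_ne_bot mem_TP
  liesOver_of_mem v_smul inertia_smul)
open Pool.Agent.Y740.RL (FewConj RamLe)
open scoped Pointwise

noncomputable section

section Step

variable {B M : Type} [Field B] [NumberField B] [Field M]
  [NumberField M] [Algebra B M]

lemma eta_prim {p k : ℕ} (hp : p.Prime) {ζ : M} (hζ : IsPrimitiveRoot ζ (p ^ (k + 2))) :
    IsPrimitiveRoot (ζ ^ p ^ (k + 1)) p := by
  have h1 : p ^ (k + 2) = p ^ (k + 1) * p := pow_succ p (k + 1)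
  exact hζ.pow (pow_pos hp.pos _) h1

lemma sigma_zeta {p k : ℕ} {ζ : M} {σ : Gal(M/B)} (hσ : σ ζ = ζ ^ (1 + p ^ (k + 1))) :
    σ ζ = ζ * ζ ^ p ^ (k + 1) := by
  rw [hσ, pow_add, pow_one]

/-- the estimate for elements whose `p`-th power is not fixed -/
lemma step [IsGalois B M] (v : FinitePlace ℚ) {p k : ℕ} (hp : p.Prime) (hv : v (p : ℚ) < 1)
    (hram : RamLe (mi v) B 1) {ζ : M} (hζ : IsPrimitiveRoot ζ (p ^ (k + 2)))
    (hdeg : finrank B M ≤ (p ^ (k + 2)).totient) {σ : Gal(M/B)}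
    (hσ : σ ζ = ζ ^ (1 + p ^ (k + 1))) {x : M} (hx : x ^ p ≠ σ x ^ p) :
    ((p : ℝ) / (p - 1) * Real.log p - Real.log 2) / (2 * p) * finrank ℚ M ≤
      Height.logHeight₁ x := by
  classical
  have hP0 := mi_ne_bot v
  have hpP : (p : 𝓞 ℚ) ∈ mi v := by
    rw [← v_lt_one_iff]
    simpa using hv
  have hη := eta_prim hp hζ
  set η := ζ ^ p ^ (k + 1) with hηd
  have hp1 : (1 : ℝ) < p := by exact_mod_cast hp.one_lt
  have hp1' : (0 : ℝ) < (p : ℝ) - 1 := by linarith
  have hη1 : η - 1 ≠ 0 := by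
    intro h0
    have h1 : η = 1 := by linear_combination h0
    exact hη.ne_one hp.one_lt h1
  set g : FinitePlace M → ℝ := fun w => (p : ℝ) / (p - 1) * ew ℚ w with hg
  have hgw : ∀ w ∈ TP M (mi v), w (η - 1) ^ p = Real.exp (-g w) := by
    intro w hw
    have h1 := v_prime (k := 0) w hp (by rw [zero_add, pow_one]; exact hη)
    have h2 := v_exact v hp hv hw
    rw [h1, zero_add, pow_one, Nat.totient_prime hp, Real.log_pow, Nat.cast_sub hp.one_le,
      Nat.cast_one] at h2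
    have h3 : Real.log (w (η - 1)) = -(ew ℚ w / (p - 1)) := by
      field_simp
      linarith
    have h4 : w (η - 1) = Real.exp (-(ew ℚ w / (p - 1))) := by
      rw [← h3, Real.exp_log (FinitePlace.pos_iff.mpr hη1)]
    rw [h4, ← Real.exp_nat_mul, hg]
    congr 1
    field_simp
  have hα : (![x ^ p, 1] : Fin 2 → M) ≠ 0 := by
    intro h0
    have := congrFun h0 1
    simp at this
  have hβ : (![σ x ^ p, 1] : Fin 2 → M) ≠ 0 := by
    intro h0
    have := congrFun h0 1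
    simp at this
  have h1 := pair_ineq (N := 1) hα hβ (by
    intro c _ h0
    have h2 := congrFun h0 1
    have h3 := congrFun h0 0
    simp at h2 h3
    rw [← h2, one_mul] at h3
    exact hx h3) (TP M (mi v)) g (by
    intro w hw i j
    rw [← hgw w hw]
    obtain ⟨htot, -⟩ := totRam hP0 hram hp hpP hζ hdeg hw (v_exact v hp hv hw)
    refine htot.pair_close σ hp hη ?_ x i j
    have h2 : σ (ζ - 1) - (ζ - 1) = ζ * (η - 1) := by
      rw [map_sub, map_one, sigma_zeta hσ]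
      ring
    rw [h2, map_mul, v_root w (pow_pos hp.pos _) hζ.pow_eq_one, one_mul])
  have h2 : ∑ w ∈ TP M (mi v), g w = (p : ℝ) / (p - 1) * ((finrank ℚ M : ℝ) *
      Real.log (mi v).absNorm) := by
    rw [hg, ← Finset.mul_sum, sum_ew hP0]
  have h3 : Height.logHeight (![x ^ p, 1] : Fin 2 → M) = p * Height.logHeight₁ x := by
    rw [← Height.logHeight₁_pow, Height.logHeight₁_eq_logHeight]
  have h4 : Height.logHeight (![σ x ^ p, 1] : Fin 2 → M) = p * Height.logHeight₁ x := by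
    have h5 := logHeight_aut (N := 1) (σ : M ≃+* M) (![x ^ p, 1] : Fin 2 → M)
    have h6 : (fun i => (σ : M ≃+* M) ((![x ^ p, 1] : Fin 2 → M) i)) = ![σ x ^ p, 1] := by
      funext i
      fin_cases i
      · change σ (x ^ p) = σ x ^ p
        exact map_pow σ x p
      · change σ (1 : M) = 1
        exact map_one σ
    rw [h6] at h5
    rw [h5, h3]
  rw [h2, h3, h4] at h1
  have h5 : Real.log p ≤ Real.log (mi v).absNorm := by
    apply Real.log_le_log (by linarith)
    exact_mod_cast le_absNorm hP0 hp hpP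
  have h6 : (0 : ℝ) < finrank ℚ M := by exact_mod_cast (finrank_pos : 0 < finrank ℚ M)
  have h7 : (p : ℝ) / (p - 1) * ((finrank ℚ M : ℝ) * Real.log p) ≤
      (p : ℝ) / (p - 1) * ((finrank ℚ M : ℝ) * Real.log (mi v).absNorm) := by
    gcongr
  rw [div_mul_eq_mul_div, div_le_iff₀ (by linarith)]
  linarith

/-- the other elements can be moved into the smaller field -/
lemma descend {p k : ℕ} (hp : p.Prime) {ζ : M} (hζ : IsPrimitiveRoot ζ (p ^ (k + 2)))
    {σ : Gal(M/B)} (hσ : σ ζ = ζ ^ (1 + p ^ (k + 1))) {x : M} (hx0 : x ≠ 0)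
    (hx : x ^ p = σ x ^ p) : ∃ i : ℕ, σ (ζ ^ i * x) = ζ ^ i * x := by
  have : NeZero p := ⟨hp.ne_zero⟩
  have hη := eta_prim hp hζ
  have hσζ := sigma_zeta hσ
  set η := ζ ^ p ^ (k + 1) with hηd
  have h1 : (σ x / x) ^ p = 1 := by
    rw [div_pow, ← hx, div_self (pow_ne_zero _ hx0)]
  obtain ⟨j, hj, hj'⟩ := hη.eq_pow_of_pow_eq_one h1
  have h2 : σ x = η ^ j * x := by
    rw [hj']
    field_simp
  refine ⟨p - j, ?_⟩
  rw [map_mul, map_pow, hσζ, h2, mul_pow]
  have h3 : η ^ (p - j) * η ^ j = 1 := by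
    rw [← pow_add, Nat.sub_add_cancel hj.le, hη.pow_eq_one]
  linear_combination (ζ ^ (p - j) * x) * h3

lemma aut_ext {ζ : M} (hgen : Algebra.adjoin B {ζ} = ⊤) {σ τ : Gal(M/B)} (h : σ ζ = τ ζ) :
    σ = τ := by
  have h1 : (σ : M →ₐ[B] M) = (τ : M →ₐ[B] M) := by
    apply AlgHom.ext_of_adjoin_eq_top hgen
    intro t ht
    rw [Set.mem_singleton_iff] at ht
    rw [ht]
    exact h
  ext x
  exact congrArg (fun φ : M →ₐ[B] M => φ x) h1

lemma exists_sigma [IsGalois B M] {p k : ℕ} (hp : p.Prime) {ζ : M}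
    (hζ : IsPrimitiveRoot ζ (p ^ (k + 2))) (hgen : Algebra.adjoin B {ζ} = ⊤)
    (hdeg : finrank B M = (p ^ (k + 2)).totient) :
    ∃ σ : Gal(M/B), σ ζ = ζ ^ (1 + p ^ (k + 1)) := by
  classical
  have hm : 0 < p ^ (k + 2) := pow_pos hp.pos _
  let f : Gal(M/B) → primitiveRoots (p ^ (k + 2)) M := fun σ =>
    ⟨σ ζ, (mem_primitiveRoots hm).mpr (hζ.map_of_injective (AlgEquiv.injective σ))⟩
  have hf : Function.Injective f := by
    intro σ τ h
    exact aut_ext hgen (congrArg Subtype.val h)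
  have hcard : Fintype.card Gal(M/B) = Fintype.card (primitiveRoots (p ^ (k + 2)) M) := by
    rw [← Nat.card_eq_fintype_card, IsGalois.card_aut_eq_finrank, hdeg, Fintype.card_coe,
      hζ.card_primitiveRoots]
  have hsurj := ((Fintype.bijective_iff_injective_and_card f).mpr ⟨hf, hcard⟩).2
  have hprim : IsPrimitiveRoot (ζ ^ (1 + p ^ (k + 1))) (p ^ (k + 2)) := by
    apply hζ.pow_of_coprime
    apply Nat.Coprime.pow_right
    rw [Nat.coprime_comm, Nat.Prime.coprime_iff_not_dvd hp]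
    intro h1
    have h2 : p ∣ p ^ (k + 1) := dvd_pow_self p (Nat.succ_ne_zero k)
    have h3 := (Nat.dvd_add_left h2).mp h1
    exact hp.one_lt.ne' (Nat.dvd_one.mp h3)
  obtain ⟨σ, h⟩ := hsurj ⟨_, (mem_primitiveRoots hm).mpr hprim⟩
  exact ⟨σ, congrArg Subtype.val h⟩

lemma sigma_pow {p k : ℕ} (hp : p.Prime) {ζ : M} (hζ : IsPrimitiveRoot ζ (p ^ (k + 2)))
    {σ : Gal(M/B)} (hσ : σ ζ = ζ ^ (1 + p ^ (k + 1))) (j : ℕ) :
    (σ ^ j) ζ = ζ * (ζ ^ p ^ (k + 1)) ^ j := by
  have hη := eta_prim hp hζ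
  have hσζ := sigma_zeta hσ
  have hση : σ (ζ ^ p ^ (k + 1)) = ζ ^ p ^ (k + 1) := by
    rw [map_pow, hσζ, mul_pow]
    have h1 : (ζ ^ p ^ (k + 1)) ^ p ^ (k + 1) = 1 := by
      have h2 : p ^ (k + 1) = p * p ^ k := pow_succ' p k
      conv_lhs => rw [h2, pow_mul]
      rw [← h2, hη.pow_eq_one, one_pow]
    rw [h1, mul_one]
  induction j with
  | zero => simp
  | succ j ih =>
    rw [pow_succ', AlgEquiv.mul_apply, ih, map_mul, map_pow, hση, hσζ, pow_succ]
    ring

lemma mem_of_fixed [IsGalois B M] {p k : ℕ} (hp : p.Prime) {ζ : M}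
    (hζ : IsPrimitiveRoot ζ (p ^ (k + 2))) (hgen : Algebra.adjoin B {ζ} = ⊤) {σ : Gal(M/B)}
    (hσ : σ ζ = ζ ^ (1 + p ^ (k + 1))) {y : M} (hy : σ y = y) :
    y ∈ IntermediateField.adjoin B {ζ ^ p} := by
  have : NeZero p := ⟨hp.ne_zero⟩
  have hη := eta_prim hp hζ
  have hζ0 : ζ ≠ 0 := hζ.ne_zero (pow_pos hp.pos _).ne'
  set M' : IntermediateField B M := IntermediateField.adjoin B {ζ ^ p} with hM'
  have hmem : ζ ^ p ∈ M' := IntermediateField.subset_adjoin B _ rfl
  have key : y ∈ (⊥ : IntermediateField M' M) := by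
    rw [IsGalois.mem_bot_iff_fixed]
    intro τ
    have h1 : τ (ζ ^ p) = ζ ^ p := τ.commutes ⟨ζ ^ p, hmem⟩
    have h2 : (τ ζ / ζ) ^ p = 1 := by
      rw [div_pow, ← map_pow, h1, div_self (pow_ne_zero _ hζ0)]
    obtain ⟨j, -, hj⟩ := hη.eq_pow_of_pow_eq_one h2
    have h3 : τ ζ = ζ * (ζ ^ p ^ (k + 1)) ^ j := by
      rw [hj]
      field_simp
    have h4 : (AlgEquiv.restrictScalars B τ : Gal(M/B)) = σ ^ j := by
      apply aut_ext hgen
      rw [sigma_pow hp hζ hσ j, ← h3]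
      rfl
    have h5 : ∀ j : ℕ, (σ ^ j) y = y := by
      intro j
      induction j with
      | zero => simp
      | succ j ih => rw [pow_succ', AlgEquiv.mul_apply, ih, hy]
    have h6 : τ y = (AlgEquiv.restrictScalars B τ : Gal(M/B)) y := rfl
    rw [h6, h4, h5]
  obtain ⟨z, hz⟩ := IntermediateField.mem_bot.mp key
  rw [← hz]
  exact z.2

end Step

end

end Pool.Agent.R976.MP.Cyc
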