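import Mathlib
import Pool.Agent.R976.MP.Cyc3
import Pool.Agent.R976.MG.Near2

/-!
# Fields generated by roots of unity of `p`-power order over unramified extensions, IV
-/

set_option autoImplicit false
set_option linter.unusedSectionVars false

namespace Pool.Agent.R976.MP.Cyc

open NumberField Module
open Pool.Agent.H420R3 (mi TP v_lt_one_iff mi_ne_bot)
open Pool.Agent.Y740.RL (FewConj RamLe)
open scoped Pointwise

noncomputable section

section Gal

variable {B M : Type} [Field B] [NumberField B] [Field M]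
  [NumberField M] [Algebra B M]

lemma cyc_ext {n : ℕ} (hn : n ≠ 0) {ζ : M} (hζ : IsPrimitiveRoot ζ n)
    (hgen : Algebra.adjoin B {ζ} = ⊤) : IsCyclotomicExtension {n} B M := by
  refine ⟨?_, ?_⟩
  · intro m hm _
    rw [Set.mem_singleton_iff] at hm
    exact ⟨ζ, hm ▸ hζ⟩
  · intro x
    have h1 : x ∈ Algebra.adjoin B {ζ} := hgen ▸ Algebra.mem_top
    refine Algebra.adjoin_mono ?_ h1
    intro y hy
    rw [Set.mem_singleton_iff] at hy
    rw [hy]
    exact ⟨n, rfl, hn, hζ.pow_eq_one⟩

lemma gal_cyc {n : ℕ} (hn : n ≠ 0) {ζ : M} (hζ : IsPrimitiveRoot ζ n)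
    (hgen : Algebra.adjoin B {ζ} = ⊤) : IsGalois B M := by
  have : NeZero n := ⟨hn⟩
  have := cyc_ext hn hζ hgen
  exact IsCyclotomicExtension.isGalois {n} B M

lemma deg_cyc {n : ℕ} (hn : n ≠ 0) {ζ : M} (hζ : IsPrimitiveRoot ζ n)
    (hgen : Algebra.adjoin B {ζ} = ⊤) : finrank B M ≤ n.totient := by
  have hint : IsIntegral B ζ := Algebra.IsIntegral.isIntegral ζ
  have h1 : finrank B M = (minpoly B ζ).natDegree := by
    have h2 := (IntermediateField.adjoin.powerBasis hint).finrank
    have h3 : IntermediateField.adjoin B {ζ} = ⊤ := by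
      rw [eq_top_iff]
      intro x _
      have h4 : x ∈ Algebra.adjoin B {ζ} := hgen ▸ Algebra.mem_top
      exact IntermediateField.algebra_adjoin_le_adjoin B {ζ} h4
    rw [← IntermediateField.finrank_top', ← h3, h2]
    rfl
  rw [h1]
  have h2 : minpoly B ζ ∣ Polynomial.cyclotomic n B := by
    apply minpoly.dvd
    rw [Polynomial.aeval_def, Polynomial.eval₂_eq_eval_map, Polynomial.map_cyclotomic]
    exact hζ.isRoot_cyclotomic (Nat.pos_of_ne_zero hn)
  have h3 := Polynomial.natDegree_le_of_dvd h2 (Polynomial.cyclotomic_ne_zero n B)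
  rwa [Polynomial.natDegree_cyclotomic] at h3

end Gal

/-- multiplication by a root of unity does not change the height -/
lemma height_root {M : Type} [Field M] [NumberField M] {ζ x : M} {m : ℕ} (hm : 0 < m)
    (h : ζ ^ m = 1) (i : ℕ) : Height.logHeight₁ (ζ ^ i * x) = Height.logHeight₁ x := by
  have h1 : (ζ ^ i * x) ^ m = x ^ m := by
    rw [mul_pow, ← pow_mul, mul_comm i m, pow_mul, h, one_pow, one_mul]
  have h2 : (m : ℝ) * Height.logHeight₁ (ζ ^ i * x) = m * Height.logHeight₁ x := by
    rw [← Height.logHeight₁_pow, h1, Height.logHeight₁_pow]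
  have hm' : (m : ℝ) ≠ 0 := by exact_mod_cast hm.ne'
  exact mul_left_cancel₀ hm' h2

/-- the induction -/
theorem induct (v : FinitePlace ℚ) {p : ℕ} (hp : p.Prime) (hv : v (p : ℚ) < 1) {c : ℝ}
    (hc : c ≤ ((p : ℝ) / (p - 1) * Real.log p - Real.log 2) / (2 * p))
    {B : Type} [Field B] [NumberField B] (hram : RamLe (mi v) B 1)
    (hbase : ∀ (M : Type) [Field M] [NumberField M] [Algebra B M] (ζ : M),
      IsPrimitiveRoot ζ (p ^ 1) → Algebra.adjoin B {ζ} = ⊤ → ∀ x : M, x ≠ 0 →
      (∀ m : ℕ, 0 < m → x ^ m ≠ 1) → c * finrank ℚ M ≤ Height.logHeight₁ x) (k : ℕ) :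
    ∀ (M : Type) [Field M] [NumberField M] [Algebra B M] (ζ : M),
      IsPrimitiveRoot ζ (p ^ (k + 1)) → Algebra.adjoin B {ζ} = ⊤ → ∀ x : M, x ≠ 0 →
      (∀ m : ℕ, 0 < m → x ^ m ≠ 1) → c * finrank ℚ M ≤ Height.logHeight₁ x := by
  induction k with
  | zero => exact hbase
  | succ k ih =>
    intro M _ _ _ ζ hζ hgen x hx0 hx
    have hζ' : IsPrimitiveRoot ζ (p ^ (k + 2)) := hζ
    have hm0 : p ^ (k + 2) ≠ 0 := (pow_pos hp.pos _).ne'
    have hgal := gal_cyc hm0 hζ' hgen
    have hdeg := deg_cyc hm0 hζ' hgen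
    have hP0 := mi_ne_bot v
    have hpP : (p : 𝓞 ℚ) ∈ mi v := by
      rw [← v_lt_one_iff]
      simpa using hv
    obtain ⟨w, hw⟩ := H420R3.TP_nonempty (M := M) (P := mi v) hP0
    obtain ⟨-, hdeg'⟩ := totRam hP0 hram hp hpP hζ' hdeg hw (v_exact v hp hv hw)
    obtain ⟨σ, hσ⟩ := exists_sigma hp hζ' hgen hdeg'
    by_cases hxσ : x ^ p = σ x ^ p
    · obtain ⟨i, hi⟩ := descend hp hζ' hσ hx0 hxσ
      have hy := mem_of_fixed hp hζ' hgen hσ hi
      set M' : IntermediateField B M := IntermediateField.adjoin B {ζ ^ p} with hM'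
      have hnf : NumberField M' := NumberField.of_module_finite B M'
      have hmem : ζ ^ p ∈ M' := IntermediateField.subset_adjoin B _ rfl
      have hprim : IsPrimitiveRoot (⟨ζ ^ p, hmem⟩ : M') (p ^ (k + 1)) := by
        have h1 : IsPrimitiveRoot (ζ ^ p) (p ^ (k + 1)) :=
          hζ'.pow (pow_pos hp.pos _) (by ring)
        exact IsPrimitiveRoot.of_map_of_injective (f := algebraMap M' M) h1
          (algebraMap M' M).injective
      have hgen' : Algebra.adjoin B {(⟨ζ ^ p, hmem⟩ : M')} = ⊤ := by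
        rw [eq_top_iff]
        intro z _
        have h1 : (z : M) ∈ M'.toSubalgebra := z.2
        have h2 : M'.toSubalgebra = Algebra.adjoin B {ζ ^ p} :=
          IntermediateField.adjoin_toSubalgebra_of_isAlgebraic fun x _ =>
            Algebra.IsAlgebraic.isAlgebraic x
        have h3 : (M'.val : M' → M) '' {(⟨ζ ^ p, hmem⟩ : M')} = {ζ ^ p} := by
          rw [Set.image_singleton]
          rfl
        rw [h2, ← h3, ← AlgHom.map_adjoin] at h1
        obtain ⟨a, ha, haz⟩ := h1
        have : a = z := Subtype.ext haz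
        rw [← this]
        exact ha
      have hζ0 : ζ ≠ 0 := hζ'.ne_zero hm0
      set y : M' := ⟨ζ ^ i * x, hy⟩ with hyd
      have hy0 : y ≠ 0 := by
        intro h0
        have h1 : ζ ^ i * x = 0 := congrArg Subtype.val h0
        exact mul_ne_zero (pow_ne_zero _ hζ0) hx0 h1
      have hyr : ∀ m : ℕ, 0 < m → y ^ m ≠ 1 := by
        intro m hm h0
        have h1 : (ζ ^ i * x) ^ m = 1 := congrArg Subtype.val h0
        apply hx (p ^ (k + 2) * m) (Nat.mul_pos (pow_pos hp.pos _) hm)
        have h2 : ((ζ ^ i * x) ^ m) ^ p ^ (k + 2) = 1 := by rw [h1, one_pow]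
        rw [← pow_mul, mul_comm m, mul_pow, ← pow_mul, mul_comm i, mul_assoc, pow_mul,
          hζ'.pow_eq_one, one_pow, one_mul] at h2
        exact h2
      have h1 := ih M' ⟨ζ ^ p, hmem⟩ hprim hgen' y hy0 hyr
      have h2 : Height.logHeight₁ (ζ ^ i * x) = finrank M' M * Height.logHeight₁ y := by
        rw [Height.logHeight₁_eq_logHeight, Height.logHeight₁_eq_logHeight]
        have h3 : Height.logHeight (fun j => algebraMap M' M ((![y, 1] : Fin 2 → M') j)) =
          finrank M' M * Height.logHeight (![y, 1] : Fin 2 → M') := Helper259.HtExt.logHeight_ext _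
        rw [← h3]
        congr 1
        funext j
        fin_cases j
        · rfl
        · exact (map_one (algebraMap M' M)).symm
      rw [height_root (pow_pos hp.pos _) hζ'.pow_eq_one] at h2
      rw [h2]
      have h3 : finrank ℚ M = finrank ℚ M' * finrank M' M := (finrank_mul_finrank ℚ M' M).symm
      rw [h3]
      push_cast
      have h4 : (0 : ℝ) ≤ finrank M' M := by positivity
      calc c * (finrank ℚ M' * finrank M' M) = (c * finrank ℚ M') * finrank M' M := by ring
        _ ≤ Height.logHeight₁ y * finrank M' M := by gcongr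
        _ = _ := by ring
    · have h1 := step v hp hv hram hζ' hdeg hσ hxσ
      refine le_trans ?_ h1
      gcongr

end

end Pool.Agent.R976.MP.Cyc
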