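import Mathlib
import Pool.Agent.R976.MP.Cyc4

/-!
# Fields generated by roots of unity and periodic points
-/

set_option autoImplicit false
set_option linter.unusedSectionVars false

namespace Pool.Agent.R976.MP.Cyc

open NumberField Module
open Pool.Agent.H420R3 (mi TP v_lt_one_iff mi_ne_bot)
open Pool.Agent.Y740.RL (FewConj RamLe)
open Pool.Agent.R976.MP.Proj (PerGenN ClassN central')
open scoped Pointwise

noncomputable section

section Top

variable {K B M : Type} [Field K] [NumberField K] [Field B] [NumberField B] [Field M]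
  [NumberField M] [Algebra K B] [Algebra B M] [Algebra K M] [IsScalarTower K B M]

lemma gal_top [IsGalois K B] {n : ℕ} (hn : n ≠ 0) {ζ : M} (hζ : IsPrimitiveRoot ζ n)
    (hgen : Algebra.adjoin B {ζ} = ⊤) : IsGalois K M := by
  have : NeZero n := ⟨hn⟩
  set F1 : IntermediateField K M := (IsScalarTower.toAlgHom K B M).fieldRange with hF1
  set F2 : IntermediateField K M := IntermediateField.adjoin K {ζ} with hF2
  have h1 : Normal K F1 :=
    Normal.of_algEquiv (AlgEquiv.ofInjectiveField (IsScalarTower.toAlgHom K B M))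
  have h2 : Normal K F2 := by
    have h3 : ζ ∈ F2 := IntermediateField.subset_adjoin K _ rfl
    have h4 : IsPrimitiveRoot (⟨ζ, h3⟩ : F2) n :=
      IsPrimitiveRoot.of_map_of_injective (f := algebraMap F2 M) hζ (algebraMap F2 M).injective
    have h5 : Algebra.adjoin K {(⟨ζ, h3⟩ : F2)} = ⊤ := by
      rw [eq_top_iff]
      intro z _
      have h1 : (z : M) ∈ F2.toSubalgebra := z.2
      have h2 : F2.toSubalgebra = Algebra.adjoin K {ζ} :=
        IntermediateField.adjoin_toSubalgebra_of_isAlgebraic fun x _ =>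
          Algebra.IsAlgebraic.isAlgebraic x
      have h3 : (F2.val : F2 → M) '' {(⟨ζ, h3⟩ : F2)} = {ζ} := by
        rw [Set.image_singleton]
        rfl
      rw [h2, ← h3, ← AlgHom.map_adjoin] at h1
      obtain ⟨a, ha, haz⟩ := h1
      have : a = z := Subtype.ext haz
      rw [← this]
      exact ha
    have hnf : NumberField F2 := NumberField.of_module_finite K F2
    have := gal_cyc (B := K) (M := F2) hn h4 h5
    exact this.to_normal
  have h3 : F1 ⊔ F2 = ⊤ := by
    rw [eq_top_iff]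
    intro x _
    have h4 : x ∈ Algebra.adjoin B {ζ} := hgen ▸ Algebra.mem_top
    induction h4 using Algebra.adjoin_induction with
    | mem t ht =>
      rw [Set.mem_singleton_iff] at ht
      rw [ht]
      exact (le_sup_right : F2 ≤ F1 ⊔ F2) (IntermediateField.subset_adjoin K _ rfl)
    | algebraMap b => exact (le_sup_left : F1 ≤ F1 ⊔ F2) ⟨b, rfl⟩
    | add a b _ _ ha hb => exact add_mem (ha trivial) (hb trivial)
    | mul a b _ _ ha hb => exact mul_mem (ha trivial) (hb trivial)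
  have h4 : Normal K (F1 ⊔ F2 : IntermediateField K M) := inferInstance
  rw [h3] at h4
  have h5 : Normal K M := Normal.of_algEquiv IntermediateField.topEquiv
  exact ⟨⟩

lemma perGen_map (v : FinitePlace K) {p R : ℕ} {t : B} (ht : t ∈ PerGenN v p R B) :
    algebraMap B M t ∈ PerGenN v p R M := by
  obtain ⟨N, F, y, hN, hF, ⟨j, hj, c, hper⟩, i, k, hk, rfl⟩ := ht
  refine ⟨N, F, fun i => algebraMap B M (y i), hN, hF, ⟨j, hj, algebraMap B M c, ?_⟩, i, k, ?_, ?_⟩
  · rw [Pool.Agent.H627.LP.act_iter_base, hper]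
    funext l
    simp only [Pi.smul_apply, smul_eq_mul, map_mul]
  · rw [Ne, map_eq_zero_iff _ (algebraMap B M).injective]
    exact hk
  · rw [map_div₀]

lemma gen_top (v : FinitePlace K) {p R n : ℕ} (hn : n ≠ 0) {ζ : M} (hζ : IsPrimitiveRoot ζ n)
    (hgenB : Algebra.adjoin K (PerGenN v p R B) = ⊤) (hgen : Algebra.adjoin B {ζ} = ⊤) :
    Algebra.adjoin K (AbSet K M ∪ PerGenN v p R M) = ⊤ := by
  have : NeZero n := ⟨hn⟩
  set A := Algebra.adjoin K (AbSet K M ∪ PerGenN v p R M) with hA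
  have h1 : ∀ b : B, algebraMap B M b ∈ A := by
    intro b
    have h2 : b ∈ Algebra.adjoin K (PerGenN v p R B) := hgenB ▸ Algebra.mem_top
    induction h2 using Algebra.adjoin_induction with
    | mem t ht => exact Algebra.subset_adjoin (Or.inr (perGen_map v ht))
    | algebraMap r =>
      rw [← IsScalarTower.algebraMap_apply]
      exact A.algebraMap_mem r
    | add a b _ _ ha hb =>
      rw [map_add]
      exact add_mem ha hb
    | mul a b _ _ ha hb =>
      rw [map_mul]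
      exact mul_mem ha hb
  have h2 : ζ ∈ A := by
    apply Algebra.subset_adjoin
    left
    intro σ τ
    obtain ⟨i, -, hi⟩ := hζ.eq_pow_of_pow_eq_one (show (σ ζ) ^ n = 1 by
      rw [← map_pow, hζ.pow_eq_one, map_one])
    obtain ⟨j, -, hj⟩ := hζ.eq_pow_of_pow_eq_one (show (τ ζ) ^ n = 1 by
      rw [← map_pow, hζ.pow_eq_one, map_one])
    rw [← hi, ← hj, map_pow, map_pow, ← hi, ← hj, ← pow_mul, ← pow_mul, mul_comm]
  rw [eq_top_iff]
  intro x _
  have h4 : x ∈ Algebra.adjoin B {ζ} := hgen ▸ Algebra.mem_top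
  induction h4 using Algebra.adjoin_induction with
  | mem t ht =>
    rw [Set.mem_singleton_iff] at ht
    rw [ht]
    exact h2
  | algebraMap b => exact h1 b
  | add a b _ _ ha hb => exact add_mem (ha trivial) (hb trivial)
  | mul a b _ _ ha hb => exact mul_mem (ha trivial) (hb trivial)

lemma ram_top {P : Ideal (𝓞 K)} [hP : P.IsMaximal] (hram : RamLe P B 1) {n : ℕ} (hn : n ≠ 0)
    {ζ : M} (hζ : IsPrimitiveRoot ζ n) (hgen : Algebra.adjoin B {ζ} = ⊤) : RamLe P M n := by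
  intro 𝔓 h𝔓 hlo
  have hgal := gal_cyc hn hζ hgen
  have hdeg := deg_cyc hn hζ hgen
  set 𝔭 : Ideal (𝓞 B) := 𝔓.under (𝓞 B) with h𝔭
  have h𝔭m : 𝔭.IsMaximal := Ideal.isMaximal_comap_of_isIntegral_of_isMaximal 𝔓
  have hlo1 : 𝔓.LiesOver 𝔭 := ⟨rfl⟩
  have hlo2 : 𝔭.LiesOver P := Ideal.LiesOver.tower_bot 𝔓 𝔭 P
  have htow : 𝔓.ramificationIdx (𝓞 K) =
      𝔭.ramificationIdx (𝓞 K) * 𝔓.ramificationIdx (𝓞 B) :=
    Ideal.ramificationIdx_tower 𝔭 𝔓
  have h1 : 𝔭.ramificationIdx (𝓞 K) ≤ 1 := hram 𝔭 h𝔭m hlo2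
  have h2 : 𝔓.ramificationIdx (𝓞 B) ≤ finrank B M := by
    rw [← Pool.Agent.Y740.RL.card_inertia_base (K := B) 𝔓, ← IsGalois.card_aut_eq_finrank]
    exact Subgroup.card_le_card_group _
  rw [htow]
  calc 𝔭.ramificationIdx (𝓞 K) * 𝔓.ramificationIdx (𝓞 B) ≤ 1 * n :=
        Nat.mul_le_mul h1 (h2.trans (hdeg.trans (Nat.totient_le n)))
    _ = n := one_mul n

end Top

/-- **Main theorem.** -/
theorem bogomolov (v : FinitePlace ℚ) {p : ℕ} (hp : p.Prime) (hv : v (p : ℚ) < 1) (R : ℕ) :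
    ∃ c : ℝ, 0 < c ∧ ∀ (B M : Type) [Field B] [NumberField B] [Field M] [NumberField M]
      [Algebra B M] [IsGalois ℚ B], Algebra.adjoin ℚ (PerGenN v p R B) = ⊤ →
      ∀ (k : ℕ) (ζ : M), IsPrimitiveRoot ζ (p ^ k) → Algebra.adjoin B {ζ} = ⊤ →
      ∀ x : M, x ≠ 0 → (∀ m : ℕ, 0 < m → x ^ m ≠ 1) →
      c ≤ Height.logHeight₁ x / finrank ℚ M := by
  obtain ⟨a, ha, hcen⟩ := central' v hp hv R
  have hpP : (p : 𝓞 ℚ) ∈ mi v := by
    rw [← v_lt_one_iff]
    simpa using hv
  have hmax : (mi v).IsMaximal := inferInstance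
  obtain ⟨C, hC, h⟩ := Pool.Agent.R976.MG.power_bound_ram ℚ hp (mi v) hmax hpP a 1 ha
  have hp1 : (1 : ℝ) < p := by exact_mod_cast hp.one_lt
  have hp0 : (0 : ℝ) < p := by linarith
  set c₁ : ℝ := ((p : ℝ) / (p - 1) * Real.log p - Real.log 2) / (2 * p) with hc₁
  have hc₁0 : 0 < c₁ := by
    apply div_pos _ (by linarith)
    have h1 : Real.log 2 ≤ Real.log p := by
      apply Real.log_le_log (by norm_num)
      exact_mod_cast hp.two_le
    have h2 : 0 < Real.log p := Real.log_pos hp1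
    have h3 : 1 < (p : ℝ) / (p - 1) := by
      rw [lt_div_iff₀ (by linarith)]
      linarith
    nlinarith
  set c₂ : ℝ := Real.exp (-C) / (C * p) with hc₂
  have hc₂0 : 0 < c₂ := by positivity
  refine ⟨min c₁ c₂, lt_min hc₁0 hc₂0, ?_⟩
  intro B M _ _ _ _ _ _ hB k ζ hζ hgen x hx0 hx
  have hramB : RamLe (mi v) B 1 := (hcen B).2 hB
  -- the bound when `ζ` has order at most `p`
  have hbase : ∀ (n : ℕ), n ≠ 0 → n ≤ p → ∀ (M : Type) [Field M] [NumberField M] [Algebra B M]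
      (ζ : M), IsPrimitiveRoot ζ n → Algebra.adjoin B {ζ} = ⊤ → ∀ x : M, x ≠ 0 →
      (∀ m : ℕ, 0 < m → x ^ m ≠ 1) → min c₁ c₂ * finrank ℚ M ≤ Height.logHeight₁ x := by
    intro n hn hnp M _ _ _ ζ hζ hgen x hx0 hx
    have hgal : IsGalois ℚ M := gal_top (K := ℚ) hn hζ hgen
    have hfew : FewConj (mi v) M 1 a := (hcen M).1 (gen_top v hn hζ hB hgen)
    have hram : RamLe (mi v) M p := fun 𝔓 h1 h2 => (ram_top hramB hn hζ hgen 𝔓 h1 h2).trans hnp
    have h1 := h M M hfew p hram x hx0 hx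
    rw [Module.finrank_self, Nat.cast_one, Real.log_one, add_zero, Real.sqrt_one, mul_one,
      mul_one] at h1
    have h2 : (0 : ℝ) < finrank ℚ M := by exact_mod_cast (finrank_pos : 0 < finrank ℚ M)
    rw [le_div_iff₀ h2] at h1
    refine le_trans ?_ h1
    have h3 : min c₁ c₂ ≤ Real.exp (-C) / (C * p) := min_le_right _ _
    gcongr
  have h2 : (0 : ℝ) < finrank ℚ M := by exact_mod_cast (finrank_pos : 0 < finrank ℚ M)
  rw [le_div_iff₀ h2]
  rcases Nat.eq_zero_or_pos k with h0 | h0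
  · rw [h0, pow_zero] at hζ
    exact hbase 1 one_ne_zero hp.one_le M ζ hζ hgen x hx0 hx
  · obtain ⟨k, rfl⟩ : ∃ j, k = j + 1 := ⟨k - 1, by omega⟩
    refine induct v hp hv (min_le_left _ _) hramB ?_ k M ζ hζ hgen x hx0 hx
    intro M _ _ _ ζ hζ hgen x hx0 hx
    rw [pow_one] at hζ
    exact hbase p hp.ne_zero le_rfl M ζ hζ hgen x hx0 hx

end

end Pool.Agent.R976.MP.Cyc
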