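import Mathlib
import Pool.Agent.R976.MP.Cyc5
import Pool.Agent.H58P.Ht

/-!
# The field generated by all roots of unity and periodic points
-/

set_option autoImplicit false
set_option linter.unusedSectionVars false

namespace Pool.Agent.R976.MP.Cyc

open NumberField Module MvPolynomial
open Pool.Agent.H420R3 (mi TP v_lt_one_iff mi_ne_bot)
open Pool.Agent.R976.MP.Proj (PerGenN ClassN central')
open Pool.Agent.W238.Leh (act act_smul)
open Pool.Agent.H627.LP (InsepN Conj single_inj)

noncomputable section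

section Act

variable {K : Type} [Field K] {N : ℕ} {F : Fin (N + 1) → MvPolynomial (Fin (N + 1)) K} {q : ℕ}

lemma act_hom {L L' : Type} [Field L] [Field L'] [Algebra K L] [Algebra K L'] (φ : L →ₐ[K] L')
    (z : Fin (N + 1) → L) (n : ℕ) :
    (act F)^[n] (fun i => φ (z i)) = fun i => φ ((act F)^[n] z i) := by
  induction n with
  | zero => rfl
  | succ n ih =>
    rw [Function.iterate_succ_apply', ih, Function.iterate_succ_apply']
    funext i
    change aeval (fun i => φ ((act F)^[n] z i)) (F i) = φ (aeval ((act F)^[n] z) (F i))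
    rw [← MvPolynomial.comp_aeval_apply]

lemma act_iter_smul' [NumberField K] {L : Type} [Field L] [Algebra K L] (hF : ∀ i, (F i).IsHomogeneous q) (c : L)
    (z : Fin (N + 1) → L) (n : ℕ) : (act F)^[n] (c • z) = c ^ q ^ n • (act F)^[n] z := by
  induction n with
  | zero => simp
  | succ n ih =>
    rw [Function.iterate_succ_apply', ih, act_smul hF, ← pow_mul, ← pow_succ,
      Function.iterate_succ_apply']

end Act

section Gen

variable {K : Type} [Field K] [NumberField K] {Ω : Type} [Field Ω] [Algebra K Ω]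
  [Algebra.IsAlgebraic K Ω]

/-- a finite set of coordinates of periodic points, stable under conjugation -/
def Good (v : FinitePlace K) (p R : ℕ) (U : Set Ω) : Prop :=
  U.Finite ∧ (∀ τ : Gal(Ω/K), ∀ u ∈ U, τ u ∈ U) ∧
    ∀ B : IntermediateField K Ω, U ⊆ B → ∀ u ∈ U, ∀ h : u ∈ B,
      (⟨u, h⟩ : B) ∈ PerGenN v p R B

lemma Good.union {v : FinitePlace K} {p R : ℕ} {U V : Set Ω} (hU : Good v p R U)
    (hV : Good v p R V) : Good v p R (U ∪ V) := by
  refine ⟨hU.1.union hV.1, ?_, ?_⟩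
  · rintro τ u (hu | hu)
    · exact Or.inl (hU.2.1 τ u hu)
    · exact Or.inr (hV.2.1 τ u hu)
  · rintro B hB u (hu | hu) h
    · exact hU.2.2 B (Set.subset_union_left.trans hB) u hu h
    · exact hV.2.2 B (Set.subset_union_right.trans hB) u hu h

lemma Good.empty (v : FinitePlace K) (p R : ℕ) : Good v p R (∅ : Set Ω) :=
  ⟨Set.finite_empty, by simp, by simp⟩

lemma exists_good {v : FinitePlace K} {p R : ℕ} {t : Ω} (ht : t ∈ PerGenN v p R Ω) :
    ∃ U : Set Ω, Good v p R U ∧ t ∈ U := by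
  obtain ⟨N, F, y, hN, hF, ⟨n, hn, c, hper⟩, i₀, k₀, hk₀, rfl⟩ := ht
  set U : Set Ω := {u | ∃ (τ : Gal(Ω/K)) (i k : Fin (N + 1)), y k ≠ 0 ∧ u = τ (y i / y k)}
    with hU
  refine ⟨U, ⟨?_, ?_, ?_⟩, ⟨1, i₀, k₀, hk₀, rfl⟩⟩
  · have h1 : U ⊆ ⋃ i : Fin (N + 1), ⋃ k : Fin (N + 1),
        (minpoly K (y i / y k)).rootSet Ω := by
      rintro u ⟨τ, i, k, -, rfl⟩
      rw [Set.mem_iUnion]
      refine ⟨i, ?_⟩
      rw [Set.mem_iUnion]
      refine ⟨k, ?_⟩
      have hint : IsIntegral K (y i / y k) := Algebra.IsIntegral.isIntegral _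
      rw [Polynomial.mem_rootSet]
      refine ⟨minpoly.ne_zero hint, ?_⟩
      have h2 : Polynomial.aeval ((τ : Ω →ₐ[K] Ω) (y i / y k)) (minpoly K (y i / y k)) = 0 := by
        rw [Polynomial.aeval_algHom_apply, minpoly.aeval, map_zero]
      exact h2
    exact (Set.finite_iUnion fun i => Set.finite_iUnion fun k =>
      Polynomial.rootSet_finite _ _).subset h1
  · rintro σ u ⟨τ, i, k, hk, rfl⟩
    exact ⟨σ * τ, i, k, hk, rfl⟩
  · rintro B hB u ⟨τ, i, k, hk, rfl⟩ h
    have hmem : ∀ l, τ (y l / y k) ∈ B := fun l => hB ⟨τ, l, k, hk, rfl⟩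
    set z : Fin (N + 1) → B := fun l => ⟨τ (y l / y k), hmem l⟩ with hz
    have hzk : z k = 1 := by
      apply Subtype.ext
      change τ (y k / y k) = 1
      rw [div_self hk, map_one]
    obtain ⟨r, hr, hrR, hFh, -⟩ := id hF
    have h1 : (fun l => B.val (z l)) = fun l => (τ : Ω →ₐ[K] Ω) (((y k)⁻¹ • y) l) := by
      funext l
      change τ (y l / y k) = τ ((y k)⁻¹ * y l)
      rw [div_eq_inv_mul]
    have h2 : ∃ d : Ω, (act F)^[n] ((y k)⁻¹ • y) = d • ((y k)⁻¹ • y) := by
      refine ⟨((y k)⁻¹) ^ (p ^ r) ^ n * c * y k, ?_⟩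
      rw [act_iter_smul' hFh, hper, smul_smul, smul_smul]
      congr 1
      field_simp
    obtain ⟨d, hd⟩ := h2
    have h3 : ∀ l, B.val ((act F)^[n] z l) = τ d * B.val (z l) := by
      intro l
      have h4 := congrFun (act_hom (F := F) B.val z n) l
      rw [h1, act_hom, hd] at h4
      have h5 : B.val (z l) = (τ : Ω →ₐ[K] Ω) (((y k)⁻¹ • y) l) := congrFun h1 l
      rw [h5, ← h4]
      change τ ((d • ((y k)⁻¹ • y)) l) = τ d * τ (((y k)⁻¹ • y) l)
      rw [Pi.smul_apply, smul_eq_mul, map_mul]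
    refine ⟨N, F, z, hN, hF, ⟨n, hn, (act F)^[n] z k, ?_⟩, i, k, ?_, ?_⟩
    · funext l
      apply Subtype.ext
      have h4 := h3 k
      rw [hzk, map_one, mul_one] at h4
      have h5 := h3 l
      rw [← h4] at h5
      exact h5
    · rw [hzk]
      exact one_ne_zero
    · rw [hzk, div_one]

end Gen

/-- roots of unity of order prime to `p` are periodic points of the `p`-th power map -/
lemma root_mem (v : FinitePlace ℚ) {p : ℕ} (hp : p.Prime) {R : ℕ} (hR : 1 ≤ R) {μ : (AlgebraicClosure ℚ)} {m : ℕ}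
    (hm : 0 < m) (hmp : m.Coprime p) (h : μ ^ m = 1) : μ ∈ PerGenN v p R (AlgebraicClosure ℚ) := by
  have h1 := Nat.ModEq.pow_totient hmp.symm
  have hpos : 0 < p ^ m.totient := pow_pos hp.pos _
  have h2 : m ∣ p ^ m.totient - 1 := (Nat.modEq_iff_dvd' (by omega)).mp h1.symm
  obtain ⟨k, hk⟩ := h2
  have h3 : p ^ m.totient = 1 + m * k := by omega
  have h4 : μ ^ p ^ m.totient = μ := by
    rw [h3, pow_add, pow_one, pow_mul, h, one_pow, mul_one]
  set F : Fin (1 + 1) → MvPolynomial (Fin (1 + 1)) ℚ := fun i => X i ^ (p ^ 1) with hF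
  have hhom : ∀ i, (F i).IsHomogeneous (p ^ 1) := fun i => by
    have := (isHomogeneous_X ℚ i).pow (p ^ 1)
    rwa [one_mul] at this
  have hp1 : 1 ≤ p ^ 1 := Nat.one_le_pow _ _ hp.pos
  have hcoeff : ∀ i m, (F i).coeff m = if Finsupp.single i (p ^ 1) = m then (1 : ℚ) else 0 :=
    fun i m => coeff_X_pow _ _ _
  refine ⟨1, F, ![μ, 1], hR, ⟨1, le_rfl, hR, hhom, 1, F, ?_, hhom, ?_, ⟨?_, ?_, ?_⟩⟩,
    ⟨m.totient, Nat.totient_pos.mpr hm, 1, ?_⟩, 0, 1, ?_, ?_⟩
  · rw [Matrix.det_one]
    exact one_ne_zero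
  · intro i
    have h5 : ∀ l : Fin (1 + 1), ∑ j, C ((1 : Matrix (Fin (1 + 1)) (Fin (1 + 1)) ℚ) l j) *
        (X j : MvPolynomial (Fin (1 + 1)) ℚ) = X l := by
      intro l
      rw [Finset.sum_eq_single l]
      · rw [Matrix.one_apply_eq, map_one, one_mul]
      · intro j _ hj
        rw [Matrix.one_apply_ne hj.symm, map_zero, zero_mul]
      · intro h0
        exact absurd (Finset.mem_univ l) h0
    rw [Finset.sum_eq_single i]
    · rw [Matrix.one_apply_eq, map_one, one_mul, Algebra.algebraMap_self, MvPolynomial.map_id, hF]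
      simp only [map_pow, bind₁_X_right, h5]
    · intro j _ hj
      rw [Matrix.one_apply_ne hj.symm, map_zero, zero_mul]
    · intro h0
      exact absurd (Finset.mem_univ i) h0
  · intro i m
    rw [hcoeff]
    split_ifs
    · rw [map_one]
    · rw [map_zero]
      exact zero_le_one
  · intro i m hm
    rw [hcoeff, if_neg (fun h0 => hm i h0.symm), map_zero]
    exact zero_lt_one
  · have h5 : (Matrix.of fun i j : Fin (1 + 1) => (F i).coeff (Finsupp.single j (p ^ 1))) = 1 := by
      ext i j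
      rw [Matrix.of_apply, hcoeff]
      by_cases hij : i = j
      · rw [hij, if_pos rfl, Matrix.one_apply_eq]
      · rw [if_neg (fun h0 => hij (single_inj hp1 h0)), Matrix.one_apply_ne hij]
    rw [h5, Matrix.det_one, map_one]
  · have h5 : ∀ n : ℕ, (act F)^[n] (![μ, 1] : Fin (1 + 1) → (AlgebraicClosure ℚ)) = ![μ ^ p ^ n, 1] := by
      intro n
      induction n with
      | zero => simp
      | succ n ih =>
        rw [Function.iterate_succ_apply', ih]
        funext i
        change aeval (![μ ^ p ^ n, 1] : Fin (1 + 1) → (AlgebraicClosure ℚ)) (X i ^ (p ^ 1)) = _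
        rw [map_pow, aeval_X, pow_one]
        fin_cases i
        · change (μ ^ p ^ n) ^ p = μ ^ p ^ (n + 1)
          rw [← pow_mul, ← pow_succ]
        · change (1 : (AlgebraicClosure ℚ)) ^ p = 1
          exact one_pow p
    rw [h5, h4, one_smul]
  · exact one_ne_zero
  · change μ = μ / 1
    rw [div_one]

end

end Pool.Agent.R976.MP.Cyc
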