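import Mathlib
import Pool.Agent.R976.MP.Cyc6

/-!
# The Bogomolov property of the field generated by all roots of unity and periodic points
-/

set_option autoImplicit false
set_option linter.unusedSectionVars false

namespace Pool.Agent.R976.MP.Cyc

open NumberField Module
open Pool.Agent.H420R3 (mi TP v_lt_one_iff mi_ne_bot)
open Pool.Agent.R976.MP.Proj (PerGenN ClassN central')

noncomputable section

/-- the main theorem for any algebra structure over `ℚ` -/
theorem bogomolov' (v : FinitePlace ℚ) {p : ℕ} (hp : p.Prime) (hv : v (p : ℚ) < 1) (R : ℕ) :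
    ∃ c : ℝ, 0 < c ∧ ∀ (B M : Type) [Field B] [NumberField B] [Field M] [NumberField M]
      [iB : Algebra ℚ B] [Algebra B M] [IsGalois ℚ B],
      Algebra.adjoin ℚ (PerGenN v p R B) = ⊤ →
      ∀ (k : ℕ) (ζ : M), IsPrimitiveRoot ζ (p ^ k) → Algebra.adjoin B {ζ} = ⊤ →
      ∀ x : M, x ≠ 0 → (∀ m : ℕ, 0 < m → x ^ m ≠ 1) →
      c ≤ Height.logHeight₁ x / finrank ℚ M := by
  obtain ⟨c, hc, h⟩ := bogomolov v hp hv R
  refine ⟨c, hc, ?_⟩
  intro B M _ _ _ _ iB _ hgal hB
  have h1 : iB = DivisionRing.toRatAlgebra := Subsingleton.elim _ _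
  subst h1
  exact h B M hB

instance qb_alg : Algebra.IsAlgebraic ℚ (AlgebraicClosure ℚ) := AlgebraicClosure.isAlgebraic ℚ

instance qb_normal : Normal ℚ (AlgebraicClosure ℚ) := by
  have h : IsAlgClosure ℚ (AlgebraicClosure ℚ) := { isAlgClosed := inferInstance, isAlgebraic := qb_alg }
  exact IsAlgClosure.normal ℚ (AlgebraicClosure ℚ)

lemma qb_int (x : (AlgebraicClosure ℚ)) : IsIntegral ℚ x :=
  ((AlgebraicClosure.isAlgebraic ℚ).isAlgebraic x).isIntegral

lemma nf_of_fd (B : IntermediateField ℚ (AlgebraicClosure ℚ)) (h : FiniteDimensional ℚ B) : NumberField B :=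
  { to_charZero := inferInstance
    to_finiteDimensional := by convert h }

open Pool.Agent.H58P Pool.Agent.Helper259.AbsHt in
lemma abs_height {M : Type} [Field M] [NumberField M] (φ : M →+* (AlgebraicClosure ℚ)) (x : M) :
    NumberField.absLogHeight₁ (φ x) = Height.logHeight₁ x / finrank ℚ M := by
  rw [absLogHeight₁_eq]
  have h1 := absLogHeight_eq M φ ![1, x]
  have e : (fun i => φ ((![1, x] : Fin 2 → M) i)) = ![1, φ x] := by
    funext i
    fin_cases i
    · simp
    · simp
  rw [e] at h1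
  rw [Height.logHeight₁_eq_logHeight, Height.logHeight_swap]
  exact h1

section GoodField

variable {K : Type} [Field K] [NumberField K] {Ω : Type} [Field Ω] [Algebra K Ω]

/-- the field generated by a good set -/
lemma good_field [Normal K Ω] {v : FinitePlace K} {p R : ℕ} {U : Set Ω} (hU : Good v p R U) :
    IsGalois K (IntermediateField.adjoin K U) ∧
    FiniteDimensional K (IntermediateField.adjoin K U) ∧
    Algebra.adjoin K (PerGenN v p R (IntermediateField.adjoin K U)) = ⊤ := by
  have halg : Algebra.IsAlgebraic K Ω := Normal.toIsAlgebraic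
  have hint : ∀ x : Ω, IsIntegral K x := fun x => Algebra.IsIntegral.isIntegral x
  have hUB : U ⊆ IntermediateField.adjoin K U := IntermediateField.subset_adjoin K U
  have hfin : Finite U := hU.1.to_subtype
  refine ⟨?_, IntermediateField.finiteDimensional_adjoin fun x _ => hint x, ?_⟩
  · have hnormal : Normal K (IntermediateField.adjoin K U) := by
      rw [IntermediateField.normal_iff_forall_map_le']
      intro σ
      rw [IntermediateField.adjoin_map]
      apply IntermediateField.adjoin.mono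
      rintro _ ⟨u, hu, rfl⟩
      exact hU.2.1 σ u hu
    exact ⟨⟩
  · rw [eq_top_iff]
    have h1 : {x : IntermediateField.adjoin K U | (x : Ω) ∈ U} ⊆
        PerGenN v p R (IntermediateField.adjoin K U) := fun x hx => hU.2.2 _ hUB _ hx x.2
    refine le_trans ?_ (Algebra.adjoin_mono h1)
    intro z _
    have h1 : (z : Ω) ∈ (IntermediateField.adjoin K U).toSubalgebra := z.2
    have h2 : (IntermediateField.adjoin K U).toSubalgebra = Algebra.adjoin K U :=
      IntermediateField.adjoin_toSubalgebra_of_isAlgebraic fun x _ => (hint x).isAlgebraic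
    have h3 : ((IntermediateField.adjoin K U).val : IntermediateField.adjoin K U → Ω) ''
        {x : IntermediateField.adjoin K U | (x : Ω) ∈ U} = U := by
      ext x
      constructor
      · rintro ⟨x', hx', rfl⟩
        exact hx'
      · intro hx
        exact ⟨⟨x, hUB hx⟩, hx, rfl⟩
    have h4 : (z : Ω) ∈ Algebra.adjoin K
        (((IntermediateField.adjoin K U).val : IntermediateField.adjoin K U → Ω) ''
          {x : IntermediateField.adjoin K U | (x : Ω) ∈ U}) := by
      rw [h3, ← h2]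
      exact z.2
    rw [← AlgHom.map_adjoin] at h4
    obtain ⟨a, ha, haz⟩ := h4
    have : a = z := Subtype.ext haz
    rw [← this]
    exact ha

end GoodField

/-- **The Bogomolov property.** -/
theorem bog_inf (v : FinitePlace ℚ) {p : ℕ} (hp : p.Prime) (hv : v (p : ℚ) < 1) {R : ℕ}
    (hR : 1 ≤ R) : ∃ c : ℝ, 0 < c ∧ ∀ β ∈ IntermediateField.adjoin ℚ
      ({y : (AlgebraicClosure ℚ) | ∃ n : ℕ, 0 < n ∧ y ^ n = 1} ∪ PerGenN v p R (AlgebraicClosure ℚ)), β ≠ 0 →
      (∀ n : ℕ, 0 < n → β ^ n ≠ 1) → c ≤ NumberField.absLogHeight₁ β := by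
  classical
  obtain ⟨c, hc, h⟩ := bogomolov' v hp hv R
  refine ⟨c, hc, ?_⟩
  intro β hβ hβ0 hβr
  obtain ⟨T, hT, hβT⟩ := IntermediateField.exists_finset_of_mem_adjoin hβ
  -- choose data for the elements of `T`
  have key : ∀ t : (AlgebraicClosure ℚ), ∃ (U : Set (AlgebraicClosure ℚ)) (n : ℕ), Good v p R U ∧ 0 < n ∧
      (t ∈ (T : Set (AlgebraicClosure ℚ)) → t ∈ U ∨ t ^ n = 1) := by
    intro t
    by_cases ht : t ∈ (T : Set (AlgebraicClosure ℚ))
    · rcases hT ht with ⟨n, hn, h1⟩ | h1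
      · exact ⟨∅, n, Good.empty v p R, hn, fun _ => Or.inr h1⟩
      · obtain ⟨U, hU, h2⟩ := exists_good h1
        exact ⟨U, 1, hU, one_pos, fun _ => Or.inl h2⟩
    · exact ⟨∅, 1, Good.empty v p R, one_pos, fun h0 => absurd h0 ht⟩
  choose Uf nf hUf hnf htf using key
  set n : ℕ := ∏ t ∈ T, nf t with hn
  have hn0 : n ≠ 0 := (Finset.prod_pos fun t _ => hnf t).ne'
  -- the union
  have hunion : ∀ S : Finset (AlgebraicClosure ℚ), ∃ U : Set (AlgebraicClosure ℚ), Good v p R U ∧ ∀ t ∈ S, Uf t ⊆ U := by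
    intro S
    induction S using Finset.induction_on with
    | empty => exact ⟨∅, Good.empty v p R, by simp⟩
    | insert a S _ ih =>
      obtain ⟨U, hU, h1⟩ := ih
      refine ⟨Uf a ∪ U, (hUf a).union hU, ?_⟩
      intro t ht
      rw [Finset.mem_insert] at ht
      rcases ht with rfl | ht
      · exact Set.subset_union_left
      · exact (h1 t ht).trans Set.subset_union_right
  obtain ⟨U₀, hU₀, hsub⟩ := hunion T
  -- roots of unity
  obtain ⟨k, m, hpm, hkm⟩ := Nat.exists_eq_pow_mul_and_not_dvd hn0 p hp.ne_one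
  have hm0 : 0 < m := by
    rcases Nat.eq_zero_or_pos m with h0 | h0
    · exact absurd (h0 ▸ dvd_zero p) hpm
    · exact h0
  have hmp : m.Coprime p := (Nat.Prime.coprime_iff_not_dvd hp).mpr hpm |>.symm
  have hpk : 0 < p ^ k := pow_pos hp.pos _
  have hne : NeZero (n : (AlgebraicClosure ℚ)) := ⟨by exact_mod_cast hn0⟩
  obtain ⟨ω, hω⟩ := HasEnoughRootsOfUnity.exists_primitiveRoot (AlgebraicClosure ℚ) n
  have hζ : IsPrimitiveRoot (ω ^ m) (p ^ k) :=
    hω.pow (Nat.pos_of_ne_zero hn0) (by rw [hkm, mul_comm])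
  have hξ : IsPrimitiveRoot (ω ^ p ^ k) m := hω.pow (Nat.pos_of_ne_zero hn0) hkm
  obtain ⟨U₁, hU₁, hmem₁⟩ := exists_good (root_mem v hp hR hm0 hmp hξ.pow_eq_one)
  set U := U₀ ∪ U₁ with hUd
  have hU : Good v p R U := hU₀.union hU₁
  -- the field generated by periodic points
  set B : IntermediateField ℚ (AlgebraicClosure ℚ) := IntermediateField.adjoin ℚ U with hB
  have hUB : U ⊆ B := IntermediateField.subset_adjoin ℚ U
  obtain ⟨hgal, hfd, hgenB⟩ := good_field hU
  have hnfB : NumberField B := nf_of_fd B hfd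
  -- the field `M`
  set ζ := ω ^ m with hζd
  have hintB : IsIntegral B ζ := (qb_int ζ).tower_top
  set M : IntermediateField B (AlgebraicClosure ℚ) := IntermediateField.adjoin B {ζ} with hM
  have hfdM : FiniteDimensional B M := IntermediateField.adjoin.finiteDimensional hintB
  have hnfM : NumberField M := NumberField.of_module_finite B M
  have hζM : ζ ∈ M := IntermediateField.subset_adjoin B _ rfl
  have hBM : ∀ x ∈ B, x ∈ M := fun x hx => M.algebraMap_mem ⟨x, hx⟩
  have hξM : ω ^ p ^ k ∈ M := hBM _ (hUB (Or.inr hmem₁))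
  have hωM : ω ∈ M := by
    have hω0 : ω ≠ 0 := hω.ne_zero hn0
    have hcop : Nat.Coprime m (p ^ k) := Nat.Coprime.pow_right k hmp
    have h1 := Nat.gcd_eq_gcd_ab m (p ^ k)
    rw [hcop.gcd_eq_one] at h1
    have h2 : ω = (ω ^ m) ^ (m.gcdA (p ^ k)) * (ω ^ p ^ k) ^ (m.gcdB (p ^ k)) := by
      rw [← zpow_natCast, ← zpow_natCast, ← zpow_mul, ← zpow_mul, ← zpow_add₀ hω0, ← h1]
      simp
    rw [h2]
    exact mul_mem (zpow_mem hζM _) (zpow_mem hξM _)
  have hβM : β ∈ M := by
    have h1 : IntermediateField.adjoin ℚ (T : Set (AlgebraicClosure ℚ)) ≤ M.restrictScalars ℚ := by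
      rw [IntermediateField.adjoin_le_iff]
      intro t ht
      change t ∈ M
      rcases htf t ht with h2 | h2
      · exact hBM _ (hUB (Or.inl (hsub t ht h2)))
      · have h3 : t ^ n = 1 := by
          obtain ⟨d, hd⟩ := Finset.dvd_prod_of_mem nf ht
          rw [hn, hd, pow_mul, h2, one_pow]
        have : NeZero n := ⟨hn0⟩
        obtain ⟨i, -, hi⟩ := hω.eq_pow_of_pow_eq_one h3
        rw [← hi]
        exact pow_mem hωM i
    exact h1 hβT
  have hprim : IsPrimitiveRoot (⟨ζ, hζM⟩ : M) (p ^ k) :=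
    IsPrimitiveRoot.of_map_of_injective (f := algebraMap M (AlgebraicClosure ℚ)) hζ (algebraMap M (AlgebraicClosure ℚ)).injective
  have hgenM : Algebra.adjoin B {(⟨ζ, hζM⟩ : M)} = ⊤ := by
    rw [eq_top_iff]
    intro z _
    have h1 : (z : (AlgebraicClosure ℚ)) ∈ M.toSubalgebra := z.2
    have h2 : M.toSubalgebra = Algebra.adjoin B {ζ} :=
      IntermediateField.adjoin_simple_toSubalgebra_of_isAlgebraic hintB.isAlgebraic
    have h3 : (M.val : M → (AlgebraicClosure ℚ)) '' {(⟨ζ, hζM⟩ : M)} = {ζ} := by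
      rw [Set.image_singleton]
      rfl
    rw [h2, ← h3, ← AlgHom.map_adjoin] at h1
    obtain ⟨a, ha, haz⟩ := h1
    have : a = z := Subtype.ext haz
    rw [← this]
    exact ha
  have h1 := @h B M _ _ _ _ _ _ hgal hgenB k ⟨ζ, hζM⟩ hprim hgenM ⟨β, hβM⟩
    (fun h0 => hβ0 (congrArg Subtype.val h0))
    (fun n hn h0 => hβr n hn (congrArg Subtype.val h0))
  have h2 := abs_height (algebraMap M (AlgebraicClosure ℚ)) ⟨β, hβM⟩
  rw [← h2] at h1
  exact h1

end

end Pool.Agent.R976.MP.Cyc
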