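import Mathlib
import Pool.Agent.R976.MP.Central2
import Pool.Agent.R976.MG.Near2
import Pool.Agent.W469.CV.MH

/-!
# The Mahler measure of polynomials with zeros near fields generated by periodic points
-/

set_option autoImplicit false

namespace Pool.Agent.R976.MP

open NumberField Module Polynomial
open Pool.Agent.H420R3 Pool.Agent.Y740.RL
open scoped Pointwise

noncomputable section

/-- the Mahler measure of an irreducible polynomial whose zero has a cyclotomic minimal polynomial
(or is zero) -/
lemma mahler_of_minpoly {L : Type*} [Field L] [CharZero L] {β : L} {f : ℤ[X]}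
    (hf : Irreducible f) (hβ : aeval β f = 0) (hint : IsIntegral ℤ β)
    (hm : ((minpoly ℤ β).map (Int.castRingHom ℂ)).mahlerMeasure = 1) :
    (f.map (Int.castRingHom ℂ)).mahlerMeasure = 1 := by
  obtain ⟨g, hg⟩ := minpoly.isIntegrallyClosed_dvd hint hβ
  have h1 : IsUnit g := by
    rcases hf.isUnit_or_isUnit hg with h | h
    · exact absurd h (minpoly.not_isUnit ℤ β)
    · exact h
  obtain ⟨u, hu, rfl⟩ := Polynomial.isUnit_iff.mp h1
  rw [hg, Polynomial.map_mul, mahlerMeasure_mul, hm, one_mul, Polynomial.map_C,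
    mahlerMeasure_const]
  rcases Int.isUnit_iff.mp hu with h | h
  · rw [h]; simp
  · rw [h]; simp

lemma mahler_cyc {L : Type*} [Field L] [CharZero L] {β : L} {f : ℤ[X]}
    (hf : Irreducible f) (hβ : aeval β f = 0) {m : ℕ} (hm : 0 < m) (h1 : β ^ m = 1) :
    (f.map (Int.castRingHom ℂ)).mahlerMeasure = 1 := by
  obtain ⟨n, hn, hprim⟩ := IsPrimitiveRoot.exists_pos h1 (by omega)
  have hint : IsIntegral ℤ β := hprim.isIntegral (by omega)
  apply mahler_of_minpoly hf hβ hint
  rw [← cyclotomic_eq_minpoly hprim (by omega)]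
  exact cyclotomic_mahlerMeasure_eq_one n

lemma mahler_zero {L : Type*} [Field L] [CharZero L] {f : ℤ[X]}
    (hf : Irreducible f) (hβ : aeval (0 : L) f = 0) :
    (f.map (Int.castRingHom ℂ)).mahlerMeasure = 1 := by
  apply mahler_of_minpoly hf hβ isIntegral_zero
  have h1 : minpoly ℤ (0 : L) = X := by
    have h2 := minpoly.eq_X_sub_C_of_algebraMap_inj (A := ℤ) (B := L) 0
      (algebraMap ℤ L).injective_int
    rw [map_zero, map_zero, sub_zero] at h2
    exact h2
  rw [h1, Polynomial.map_X]
  have h3 := mahlerMeasure_X_sub_C (0 : ℂ)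
  rw [map_zero, sub_zero] at h3
  rw [h3]
  simp

/-- **the bound** -/
theorem periodic_mahler {K : Type} [Field K] [NumberField K] (v : FinitePlace K) {p : ℕ}
    (hp : p.Prime) (hv : v (p : K) < 1) (R : ℕ) :
    ∃ C : ℝ, 0 < C ∧ ∀ (E L : Type) [Field E] [NumberField E] [Field L] [NumberField L]
      [Algebra K E] [Algebra E L] [IsGalois K E],
      Algebra.adjoin K (AbSet K E ∪ PerGen v p R E) = ⊤ → ∀ e : ℕ, 1 ≤ e →
      (Algebra.adjoin K (PerGen v p R E) = ⊤ ∨ RamLe (mi v) E e) →
      ∀ f : ℤ[X], Irreducible f → ∀ β : L, aeval β f = 0 →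
        (f.map (Int.castRingHom ℂ)).mahlerMeasure = 1 ∨
        f.natDegree * (Real.exp (-(C * Real.sqrt (1 + Real.log (finrank E L)))) /
          (C * e * finrank E L)) ≤ Real.log (f.map (Int.castRingHom ℂ)).mahlerMeasure := by
  obtain ⟨a, ha, hcen⟩ := central v hp hv R
  have hpP : (p : 𝓞 K) ∈ mi v := by
    rw [← v_lt_one_iff]
    simpa using hv
  have hmax : (mi v).IsMaximal := inferInstance
  obtain ⟨C, hC, h⟩ := Pool.Agent.R976.MG.power_bound_ram K hp (mi v) hmax hpP a 1 ha
  refine ⟨C, hC, ?_⟩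
  intro E L _ _ _ _ _ _ _ hgen e he hor f hf β hβ
  let i1 : Algebra K L := ((algebraMap E L).comp (algebraMap K E)).toAlgebra
  have i2 : IsScalarTower K E L := IsScalarTower.of_algebraMap_eq fun x => rfl
  obtain ⟨hc1, hc2⟩ := hcen E
  have hfew := hc1 hgen
  have hram : RamLe (mi v) E e := by
    rcases hor with h1 | h1
    · intro 𝔓 h2 h3
      exact (hc2 h1 𝔓 h2 h3).trans he
    · exact h1
  by_cases hβ0 : β = 0
  · left
    rw [hβ0] at hβ
    exact mahler_zero hf hβ
  by_cases hroot : ∀ m : ℕ, 0 < m → β ^ m ≠ 1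
  · right
    have h1 := h E L hfew e hram β hβ0 hroot
    have hdeg : 0 < f.natDegree := by
      rcases Nat.eq_zero_or_pos f.natDegree with h0 | h0
      · exfalso
        rw [natDegree_eq_zero] at h0
        obtain ⟨n, rfl⟩ := h0
        rw [aeval_C] at hβ
        have h2 : n = 0 := by
          simpa using hβ
        rw [h2, map_zero] at hf
        exact not_irreducible_zero hf
      · exact h0
    have h2 := Pool.Agent.W469.CV.MH.t L β f hf hdeg hβ
    have h3 : Pool.Agent.H813R3.Voj.mahler f = (f.map (Int.castRingHom ℂ)).mahlerMeasure := rfl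
    rw [h3] at h2
    have hLR : (0 : ℝ) < finrank ℚ L := by exact_mod_cast (finrank_pos : 0 < finrank ℚ L)
    have hdR : (0 : ℝ) < f.natDegree := by exact_mod_cast hdeg
    set X := Real.exp (-(C * Real.sqrt (1 + Real.log (finrank E L)))) / (C * e * finrank E L)
    have h4 : X * finrank ℚ L ≤ Real.log (Height.mulHeight₁ β) := by
      rwa [le_div_iff₀ hLR] at h1
    have h5 : (f.natDegree * X) * finrank ℚ L ≤
        Real.log (f.map (Int.castRingHom ℂ)).mahlerMeasure * finrank ℚ L := by
      calc (f.natDegree * X) * finrank ℚ L = f.natDegree * (X * finrank ℚ L) := by ring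
        _ ≤ f.natDegree * Real.log (Height.mulHeight₁ β) := by gcongr
        _ ≤ _ := by
          rw [← mul_div_assoc, le_div_iff₀ hdR] at h2
          linarith
    exact le_of_mul_le_mul_right h5 hLR
  · left
    push Not at hroot
    obtain ⟨m, hm, h1⟩ := hroot
    exact mahler_cyc hf hβ hm h1

end

end Pool.Agent.R976.MP
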