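import Mathlib
import Pool.Agent.R976.MP.ProjD
import Pool.Agent.Y740.RL.Ell5

/-!
# Central Frobenius elements for fields generated by torsion points of supersingular curves
-/

set_option autoImplicit false
set_option linter.unusedSectionVars false

namespace Pool.Agent.R976.MP.Proj

open NumberField Module MvPolynomial
open Pool.Agent.W238.Leh Pool.Agent.H627.LP
open Pool.Agent.H420R3 (mi nv TP ew exists_frac v_lt_one_iff mi_ne_bot)
open Pool.Agent.Y740.RL (FewConj RamLe xc Tor xySet)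
open scoped Pointwise

noncomputable section

lemma tor_per {N : Type*} [Field N] [DecidableEq N] {W : WeierstrassCurve.Affine N} {p : ℕ}
    (hp : p.Prime) {Q : W.Point} (hQ : Tor p Q) : ∃ j : ℕ, 1 ≤ j ∧ p ^ j • Q = Q := by
  obtain ⟨m, hm, hT⟩ := hQ
  have hp2 := hp.two_le
  have hm0 : 0 < m := by
    rcases Nat.eq_zero_or_pos m with h0 | h0
    · rw [h0, Nat.coprime_zero_left] at hm
      omega
    · exact h0
  have h1 := Nat.ModEq.pow_totient hm.symm
  have hpos : 0 < p ^ m.totient := by positivity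
  have h2 : m ∣ p ^ m.totient - 1 := (Nat.modEq_iff_dvd' (by omega)).mp h1.symm
  obtain ⟨k, hk⟩ := h2
  have h3 : p ^ m.totient = 1 + m * k := by omega
  refine ⟨m.totient, Nat.totient_pos.mpr hm0, ?_⟩
  rw [h3, add_nsmul, one_nsmul, mul_nsmul, hT, nsmul_zero, add_zero]

variable {K : Type} [Field K] [NumberField K]

open Classical in
/-- `F` gives the multiplication by `p` on first coordinates of `W` and has good, purely
inseparable reduction at `v` in some coordinates over `K` -/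
def Sup (v : FinitePlace K) (p : ℕ) (W : WeierstrassCurve.Affine K)
    (F : Fin 2 → MvPolynomial (Fin 2) K) : Prop :=
  (∀ i, (F i).IsHomogeneous (p ^ 2)) ∧
  (∀ (L : Type) [Field L] [NumberField L] [Algebra K L] (P : (W.baseChange L).Point),
    ∃ c : L, c ≠ 0 ∧ act F (xc P) = c • xc (p • P)) ∧
  ∃ (A : Matrix (Fin 2) (Fin 2) K) (G : Fin 2 → MvPolynomial (Fin 2) K),
    A.det ≠ 0 ∧ (∀ i, (G i).IsHomogeneous (p ^ 2)) ∧ Conj (N := 1) A F G ∧
      InsepN (N := 1) v (p ^ 2) G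

open Classical in
/-- the coordinates of the torsion points of order prime to `p` of these curves -/
def TorGen (v : FinitePlace K) (p : ℕ) (E : Type) [Field E] [NumberField E] [Algebra K E] :
    Set E :=
  {t | ∃ (W : WeierstrassCurve.Affine K) (F : Fin 2 → MvPolynomial (Fin 2) K),
    Sup v p W F ∧ t ∈ xySet E W p}

variable {E : Type} [Field E] [NumberField E] [Algebra K E]

open Classical in
/-- powers of Frobenius act on torsion points, up to the sign, as powers of `p` -/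
lemma tor_frob (v : FinitePlace K) {p S T R : ℕ} (hp : p.Prime) (hR : 2 ≤ R)
    (hST : ∀ N : ℕ, N ≤ R → ∀ r : ℕ, 1 ≤ r →
      ∀ G : Fin (N + 1) → MvPolynomial (Fin (N + 1)) K,
      (∀ i, (G i).IsHomogeneous (p ^ r)) → InsepN v (p ^ r) G →
      ∃ b : 𝓞 K, b ≠ 0 ∧ GoodN (mi v) (Fit (fun i => C (b : K) * G i) S) ((p ^ r) ^ S) ∧
        (p ^ r) ^ S = (mi v).absNorm ^ (r * T)) {W : WeierstrassCurve.Affine K}
    {F : Fin 2 → MvPolynomial (Fin 2) K} (hsup : Sup v p W F) {w : FinitePlace E}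
    (hw : w ∈ TP E (mi v)) {g : Gal(E/K)} {m : ℕ} (hfr : FrobAt w g (((p ^ 2) ^ S) ^ m))
    (Q : (W.baseChange E).Point) (hQ : Tor p Q) :
    WeierstrassCurve.Affine.Point.map (W' := W) (g : E →ₐ[K] E) Q = p ^ (S * m) • Q ∨
    WeierstrassCurve.Affine.Point.map (W' := W) (g : E →ₐ[K] E) Q = -(p ^ (S * m) • Q) := by
  obtain ⟨hF, hmul, A, G, hA, hG, hconj, hred⟩ := hsup
  obtain ⟨b, hb, hgood, hpow⟩ := hST 1 (by omega) 2 (by norm_num) G hG hred
  set AM := A.map (algebraMap K E) with hAM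
  have hAM0 : AM.det ≠ 0 := by
    have h1 : AM.det = algebraMap K E A.det := by
      rw [RingHom.map_det]
      rfl
    rw [h1, Ne, FaithfulSMul.algebraMap_eq_zero_iff]
    exact hA
  obtain ⟨j, hj, hjQ⟩ := tor_per hp hQ
  obtain ⟨c, hc, hcQ⟩ := Pool.Agent.Y740.RL.iter_xc hF (hmul E) Q j
  rw [hjQ] at hcQ
  have hz : lin (N := 1) AM (xc Q) ≠ 0 :=
    lin_ne_zero hAM0 (Pool.Agent.Y740.RL.xc_ne_zero Q)
  have hper : ∃ c' : E, (act (Fit (fun i => C (b : K) * G i) S))^[j] (lin (N := 1) AM (xc Q)) =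
      c' • lin (N := 1) AM (xc Q) := by
    have hcQ' : (act F)^[j] (xc Q) = c • xc Q := hcQ
    obtain ⟨d, hd⟩ := per_mul (N := 1) hF hcQ' S
    obtain ⟨c₁, -, hc₁⟩ := act_C_mul_iter (b := b) hb hG (lin (N := 1) AM (xc Q)) (S * j)
    refine ⟨c₁ * d, ?_⟩
    rw [act_Fit_iter, hc₁, hAM, hconj.act_iter, Nat.mul_comm S j, hd, lin_smul, smul_smul]
  obtain ⟨c', hper⟩ := hper
  obtain ⟨e, he, hact⟩ := act_frob (mi_ne_bot v) hgood hw hfr hz hj hper
  obtain ⟨c₁, hc₁, h1⟩ := act_C_mul_iter (b := b) hb hG (lin (N := 1) AM (xc Q)) (S * m)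
  obtain ⟨c₂, hc₂, h2⟩ := Pool.Agent.Y740.RL.iter_xc hF (hmul E) Q (S * m)
  have h2' : (act F)^[S * m] (xc Q) = c₂ • xc (p ^ (S * m) • Q) := h2
  have h3 : (fun i => g (lin (N := 1) AM (xc Q) i)) =
      lin (N := 1) AM (fun i => g (xc Q i)) := by
    funext l
    simp only [lin, map_sum, map_mul]
    refine Finset.sum_congr rfl fun m _ => ?_
    rw [hAM, Matrix.map_apply, AlgEquiv.commutes]
  have h4 : lin (N := 1) AM (fun i => g (xc Q i)) =
      lin (N := 1) AM ((e * c₁ * c₂) • xc (p ^ (S * m) • Q)) := by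
    rw [← h3, hact, act_Fit_iter, h1]
    conv_lhs => rw [hAM, hconj.act_iter, h2', lin_smul]
    rw [lin_smul, smul_smul, smul_smul, mul_assoc]
  have h5 := lin_inj hAM0 h4
  have h6 := Pool.Agent.Y740.RL.xc_map W (g : E →ₐ[K] E) Q
  refine Pool.Agent.Y740.RL.eq_or_neg_of_xc (c := e * c₁ * c₂)
    (mul_ne_zero (mul_ne_zero he hc₁) hc₂) ?_
  rw [h6]
  exact h5

open Classical in
/-- the square of such an element acts as a power of `p` -/
lemma tor_sq {p n : ℕ} {W : WeierstrassCurve.Affine K} {g : Gal(E/K)}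
    (h : ∀ Q : (W.baseChange E).Point, Tor p Q →
      WeierstrassCurve.Affine.Point.map (W' := W) (g : E →ₐ[K] E) Q = n • Q ∨
      WeierstrassCurve.Affine.Point.map (W' := W) (g : E →ₐ[K] E) Q = -(n • Q))
    (Q : (W.baseChange E).Point) (hQ : Tor p Q) :
    WeierstrassCurve.Affine.Point.map (W' := W) (g : E →ₐ[K] E)
      (WeierstrassCurve.Affine.Point.map (W' := W) (g : E →ₐ[K] E) Q) = n • n • Q := by
  rcases h Q hQ with h1 | h1
  · conv_lhs => rw [h1, map_nsmul, h1]
  · conv_lhs => rw [h1, map_neg, map_nsmul, h1, smul_neg, neg_neg]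

open Classical in
/-- such squares commute with all automorphisms on the coordinates of torsion points -/
lemma tor_comm {p n : ℕ} {W : WeierstrassCurve.Affine K} {g : Gal(E/K)}
    (h : ∀ Q : (W.baseChange E).Point, Tor p Q →
      WeierstrassCurve.Affine.Point.map (W' := W) (g : E →ₐ[K] E) Q = n • Q ∨
      WeierstrassCurve.Affine.Point.map (W' := W) (g : E →ₐ[K] E) Q = -(n • Q))
    {t : E} (ht : t ∈ xySet E W p) (τ : Gal(E/K)) :
    τ (g (g (τ⁻¹ t))) = g (g t) := by
  obtain ⟨x, y, hxy, hT, ht⟩ := ht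
  set Q : (W.baseChange E).Point := WeierstrassCurve.Affine.Point.some x y hxy with hQ
  have h1 := tor_sq h Q hT
  have h2 := tor_sq h _ (hT.map ((τ⁻¹ : Gal(E/K)) : E →ₐ[K] E))
  have hinv : ∀ z : E, τ (τ⁻¹ z) = z := fun z => by
    change (τ * τ⁻¹) z = z
    rw [mul_inv_cancel]
    rfl
  have h3 : WeierstrassCurve.Affine.Point.map (W' := W) (τ : E →ₐ[K] E)
      (WeierstrassCurve.Affine.Point.map (W' := W) ((τ⁻¹ : Gal(E/K)) : E →ₐ[K] E) Q) = Q := by
    rw [hQ, WeierstrassCurve.Affine.Point.map_some, WeierstrassCurve.Affine.Point.map_some]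
    rw [WeierstrassCurve.Affine.Point.some.injEq]
    exact ⟨hinv x, hinv y⟩
  have h4 := congrArg (WeierstrassCurve.Affine.Point.map (W' := W) (τ : E →ₐ[K] E)) h2
  conv_rhs at h4 => rw [map_nsmul, map_nsmul, h3, ← h1]
  rw [hQ] at h4
  simp only [WeierstrassCurve.Affine.Point.map_some] at h4
  rw [WeierstrassCurve.Affine.Point.some.injEq] at h4
  rcases ht with rfl | rfl
  · exact h4.1
  · exact h4.2

/-- **Main lemma.** -/
theorem centralT (v : FinitePlace K) {p : ℕ} (hp : p.Prime) (hv : v (p : K) < 1) (R : ℕ) :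
    ∃ a : ℕ, 1 ≤ a ∧ ∀ (E : Type) [Field E] [NumberField E] [Algebra K E] [IsGalois K E],
      Algebra.adjoin K (AbSet K E ∪ PerGenN v p R E ∪ TorGen v p E) = ⊤ →
        FewConj (mi v) E 1 a := by
  classical
  obtain ⟨S, T, hS, hT, hST⟩ := uniform_model v hp hv (max R 2)
  refine ⟨2 * ((max R 2).factorial * T),
    Nat.mul_pos two_pos (Nat.mul_pos (Nat.factorial_pos _) hT), ?_⟩
  intro E _ _ _ _ hgen
  have hP0 := mi_ne_bot v
  intro 𝔓 h𝔓 hlo σ hσ
  obtain ⟨w, hw, rfl⟩ := exists_place hP0 𝔓 h𝔓 hlo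
  suffices h3 : (Set.range fun τ : Gal(E/K) => τ * σ ^ (2 * ((max R 2).factorial * T)) * τ⁻¹) ⊆
      {σ ^ (2 * ((max R 2).factorial * T))} from
    (Set.ncard_le_ncard h3 (Set.finite_singleton _)).trans (by simp)
  rintro _ ⟨τ, rfl⟩
  rw [Set.mem_singleton_iff]
  -- automorphisms fixing generators
  have hone : ∀ g : Gal(E/K), (∀ t ∈ AbSet K E ∪ PerGenN v p R E ∪ TorGen v p E, g t = t) →
      g = 1 := by
    intro g hg
    have h1 : (g : E →ₐ[K] E) = AlgHom.id K E := AlgHom.ext_of_adjoin_eq_top hgen hg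
    ext x
    exact congrArg (fun φ : E →ₐ[K] E => φ x) h1
  obtain ⟨i, hi, hσi⟩ := dec_frob hP0 hw hσ
  obtain ⟨hst, hpow⟩ := dec_pow hσ hσi (2 * ((max R 2).factorial * T))
  obtain ⟨hst', hpow'⟩ := dec_pow hσ hσi ((max R 2).factorial * T)
  have hsq : σ ^ (2 * ((max R 2).factorial * T)) =
      σ ^ ((max R 2).factorial * T) * σ ^ ((max R 2).factorial * T) := by
    rw [two_mul, pow_add]
  set g := σ ^ (2 * ((max R 2).factorial * T)) with hg
  set g₀ := σ ^ ((max R 2).factorial * T) with hg₀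
  have h0 : g⁻¹ * (τ * g * τ⁻¹) = 1 := by
    apply hone _
    rintro t ((ht | ht) | ht)
    · change g⁻¹ (τ (g (τ⁻¹ t))) = t
      rw [ht g τ⁻¹]
      change g⁻¹ ((τ * τ⁻¹) (g t)) = t
      rw [mul_inv_cancel]
      change (g⁻¹ * g) t = t
      rw [inv_mul_cancel]
      rfl
    · have ht' : t ∈ PerGenN v p (max R 2) E := by
        obtain ⟨N, F, y, hN, ⟨r, hr, hrR, hF⟩, hrest⟩ := ht
        exact ⟨N, F, y, hN.trans (le_max_left _ _), ⟨r, hr, hrR.trans (le_max_left _ _), hF⟩,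
          hrest⟩
      obtain ⟨N, r, Φ, z, hr, hrR, hq, hgood, hz, ⟨j, hj, c, hper⟩, hfix⟩ := pt_data v hST ht'
      apply hfix
      obtain ⟨m, hm⟩ : r ∣ (max R 2).factorial := Nat.dvd_factorial (by omega) hrR
      have hexp : ((p ^ r) ^ S) ^ (2 * (i * m)) =
          ((mi v).absNorm ^ i) ^ (2 * ((max R 2).factorial * T)) := by
        rw [hq, ← pow_mul, ← pow_mul, hm]
        congr 1
        ring
      have hfr : FrobAt w g (((p ^ r) ^ S) ^ (2 * (i * m))) := ⟨hst, by rw [hexp]; exact hpow⟩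
      -- the action on `z` and on `τ⁻¹ z`
      obtain ⟨e₁, he₁, h1⟩ := act_frob hP0 hgood hw hfr hz hj hper
      have hz' : (fun i => τ⁻¹ (z i)) ≠ 0 := by
        intro h0
        apply hz
        funext i
        have := congrFun h0 i
        simpa using this
      have hper' : (act Φ)^[j] (fun i => τ⁻¹ (z i)) = τ⁻¹ c • fun i => τ⁻¹ (z i) := by
        rw [act_gal_iter, hper]
        funext i
        simp only [Pi.smul_apply, smul_eq_mul, map_mul]
      obtain ⟨e₂, he₂, h2⟩ := act_frob hP0 hgood hw hfr hz' hj hper'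
      rw [act_gal_iter] at h2
      refine ⟨g⁻¹ (τ e₂ * e₁⁻¹), ?_, ?_⟩
      · rw [Ne, map_eq_zero_iff _ (AlgEquiv.injective g⁻¹)]
        exact mul_ne_zero ((map_ne_zero τ).mpr he₂) (inv_ne_zero he₁)
      · funext l
        have h3 : g (z l) = e₁ * (act Φ)^[2 * (i * m)] z l := congrFun h1 l
        have h4 : g (τ⁻¹ (z l)) = e₂ * τ⁻¹ ((act Φ)^[2 * (i * m)] z l) := congrFun h2 l
        change g⁻¹ (τ (g (τ⁻¹ (z l)))) = g⁻¹ (τ e₂ * e₁⁻¹) * z l
        have h5 : z l = g⁻¹ (g (z l)) := by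
          change z l = (g⁻¹ * g) (z l)
          rw [inv_mul_cancel]
          rfl
        conv_rhs => rw [h5, ← map_mul, h3]
        rw [h4, map_mul]
        congr 1
        have h6 : τ (τ⁻¹ ((act Φ)^[2 * (i * m)] z l)) = (act Φ)^[2 * (i * m)] z l := by
          change (τ * τ⁻¹) _ = _
          rw [mul_inv_cancel]
          rfl
        rw [h6]
        field_simp
    · obtain ⟨W, F, hsup, ht⟩ := ht
      obtain ⟨m, hm⟩ : 2 ∣ (max R 2).factorial := Nat.dvd_factorial two_pos (le_max_right _ _)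
      obtain ⟨-, -, A, G, -, hG, -, hred⟩ := id hsup
      obtain ⟨-, -, -, hq⟩ := hST 1 (by omega) 2 (by norm_num) G hG hred
      have hexp : ((p ^ 2) ^ S) ^ (i * m) =
          ((mi v).absNorm ^ i) ^ ((max R 2).factorial * T) := by
        rw [hq, ← pow_mul, ← pow_mul, hm]
        congr 1
        ring
      have hfr : FrobAt w g₀ (((p ^ 2) ^ S) ^ (i * m)) :=
        ⟨hst', by rw [hexp]; exact hpow'⟩
      have h1 := tor_comm (fun Q hQ => tor_frob v hp (le_max_right R 2) hST hsup hw hfr Q hQ) ht τ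
      change g⁻¹ (τ (g (τ⁻¹ t))) = t
      have h2 : ∀ z, g z = g₀ (g₀ z) := fun z => by
        rw [hsq]
        rfl
      rw [h2, h1, ← h2]
      change (g⁻¹ * g) t = t
      rw [inv_mul_cancel]
      rfl
  rw [inv_mul_eq_one] at h0
  exact h0.symm

open Classical in
/-- an automorphism which acts on all torsion points by signs acts by one sign -/
lemma sign_dich {p : ℕ} {W : WeierstrassCurve.Affine K} {g : Gal(E/K)}
    (h : ∀ Q : (W.baseChange E).Point, Tor p Q →
      WeierstrassCurve.Affine.Point.map (W' := W) (g : E →ₐ[K] E) Q = Q ∨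
      WeierstrassCurve.Affine.Point.map (W' := W) (g : E →ₐ[K] E) Q = -Q) :
    (∀ Q : (W.baseChange E).Point, Tor p Q →
      WeierstrassCurve.Affine.Point.map (W' := W) (g : E →ₐ[K] E) Q = Q) ∨
    (∀ Q : (W.baseChange E).Point, Tor p Q →
      WeierstrassCurve.Affine.Point.map (W' := W) (g : E →ₐ[K] E) Q = -Q) := by
  by_contra hcon
  push Not at hcon
  obtain ⟨⟨T₁, hT₁, h₁⟩, T₂, hT₂, h₂⟩ := hcon
  have e₁ := (h T₁ hT₁).resolve_left h₁
  have e₂ := (h T₂ hT₂).resolve_right h₂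
  rcases h _ (hT₁.add hT₂) with h | h
  · rw [map_add, e₁, e₂] at h
    exact h₁ (e₁.trans (add_right_cancel h))
  · rw [map_add, e₁, e₂, neg_add] at h
    exact h₂ (e₂.trans (add_left_cancel h))

open Classical in
/-- the ramification over fields generated by torsion points of `n` curves -/
theorem ramT (v : FinitePlace K) {p : ℕ} (hp : p.Prime) (hv : v (p : K) < 1) (R : ℕ)
    (E : Type) [Field E] [NumberField E] [Algebra K E] [IsGalois K E] {n : ℕ}
    (Ws : Fin n → WeierstrassCurve.Affine K) (hs : ∀ i, ∃ F, Sup v p (Ws i) F)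
    (hgen : Algebra.adjoin K (PerGenN v p R E ∪ {t | ∃ i, t ∈ xySet E (Ws i) p}) = ⊤) :
    RamLe (mi v) E (2 ^ n) := by
  obtain ⟨S, T, hS, hT, hST⟩ := uniform_model v hp hv (max R 2)
  have hP0 := mi_ne_bot v
  intro 𝔓 h𝔓 hlo
  obtain ⟨w, hw, rfl⟩ := exists_place hP0 𝔓 h𝔓 hlo
  rw [← Pool.Agent.Y740.RL.card_inertia_base (K := K) (mi w)]
  have h0 : mi w ≠ ⊥ := mi_ne_bot w
  have hfr : ∀ g ∈ (mi w).inertia Gal(E/K), ∀ M : ℕ, FrobAt w g (M ^ 0) := by
    intro g hg M
    rw [pow_zero]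
    have h1 : ∀ x : 𝓞 E, g • x - x ^ 1 ∈ mi w := by
      intro x
      rw [pow_one]
      exact (AddSubgroup.mem_inertia.mp hg) x
    exact ⟨smul_eq_of_congr one_ne_zero inferInstance h0 h1, h1⟩
  have hper : ∀ g ∈ (mi w).inertia Gal(E/K), ∀ t ∈ PerGenN v p R E, g t = t := by
    intro g hg t ht
    have ht' : t ∈ PerGenN v p (max R 2) E := by
      obtain ⟨N, F, y, hN, ⟨r, hr, hrR, hF⟩, hrest⟩ := ht
      exact ⟨N, F, y, hN.trans (le_max_left _ _), ⟨r, hr, hrR.trans (le_max_left _ _), hF⟩,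
        hrest⟩
    obtain ⟨N, r, Φ, z, hr, hrR, hq, hgood, hz, ⟨j, hj, c, hper⟩, hfix⟩ := pt_data v hST ht'
    apply hfix
    obtain ⟨e, he, h1⟩ := act_frob hP0 hgood hw (hfr g hg _) hz hj hper
    exact ⟨e, he, h1⟩
  have hsign : ∀ g ∈ (mi w).inertia Gal(E/K), ∀ i, ∀ Q : ((Ws i).baseChange E).Point, Tor p Q →
      WeierstrassCurve.Affine.Point.map (W' := Ws i) (g : E →ₐ[K] E) Q = Q ∨
      WeierstrassCurve.Affine.Point.map (W' := Ws i) (g : E →ₐ[K] E) Q = -Q := by
    intro g hg i Q hQ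
    obtain ⟨F, hF⟩ := hs i
    have h1 := tor_frob v hp (le_max_right R 2) hST hF hw (hfr g hg ((p ^ 2) ^ S)) Q hQ
    simpa using h1
  let s : (mi w).inertia Gal(E/K) → (Fin n → Bool) := fun g i =>
    decide (∀ Q : ((Ws i).baseChange E).Point, Tor p Q →
      WeierstrassCurve.Affine.Point.map (W' := Ws i) ((g : Gal(E/K)) : E →ₐ[K] E) Q = Q)
  have hinj : Function.Injective s := by
    intro g g' hgg
    have h1 : ∀ i, ∀ Q : ((Ws i).baseChange E).Point, Tor p Q →
        WeierstrassCurve.Affine.Point.map (W' := Ws i) ((g : Gal(E/K)) : E →ₐ[K] E) Q =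
        WeierstrassCurve.Affine.Point.map (W' := Ws i) ((g' : Gal(E/K)) : E →ₐ[K] E) Q := by
      intro i Q hQ
      by_cases hσ : ∀ Q : ((Ws i).baseChange E).Point, Tor p Q →
          WeierstrassCurve.Affine.Point.map (W' := Ws i) ((g : Gal(E/K)) : E →ₐ[K] E) Q = Q
      · have hσ' : ∀ Q : ((Ws i).baseChange E).Point, Tor p Q →
            WeierstrassCurve.Affine.Point.map (W' := Ws i) ((g' : Gal(E/K)) : E →ₐ[K] E) Q =
              Q := by
          have e1 : s g i = true := decide_eq_true hσ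
          rw [hgg] at e1
          exact of_decide_eq_true e1
        rw [hσ Q hQ, hσ' Q hQ]
      · have hσ' : ¬ ∀ Q : ((Ws i).baseChange E).Point, Tor p Q →
            WeierstrassCurve.Affine.Point.map (W' := Ws i) ((g' : Gal(E/K)) : E →ₐ[K] E) Q =
              Q := by
          have e1 : s g i = false := decide_eq_false hσ
          rw [hgg] at e1
          exact of_decide_eq_false e1
        rw [(sign_dich (hsign g g.2 i)).resolve_left hσ Q hQ,
          (sign_dich (hsign g' g'.2 i)).resolve_left hσ' Q hQ]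
    apply Subtype.ext
    have h2 : ((g : Gal(E/K)) : E →ₐ[K] E) = ((g' : Gal(E/K)) : E →ₐ[K] E) := by
      apply AlgHom.ext_of_adjoin_eq_top hgen
      rintro t (ht | ⟨i, ht⟩)
      · change (g : Gal(E/K)) t = (g' : Gal(E/K)) t
        rw [hper g g.2 t ht, hper g' g'.2 t ht]
      · obtain ⟨x, y, hxy, hT, ht⟩ := ht
        have h3 := h1 i _ hT
        rw [WeierstrassCurve.Affine.Point.map_some, WeierstrassCurve.Affine.Point.map_some] at h3
        have h4 := WeierstrassCurve.Affine.Point.some.inj h3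
        rcases ht with rfl | rfl
        · exact h4.1
        · exact h4.2
    ext x
    exact congrArg (fun φ : E →ₐ[K] E => φ x) h2
  have h3 := Nat.card_le_card_of_injective s hinj
  simpa using h3

end

end Pool.Agent.R976.MP.Proj
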